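import Pool.Agent.H65FJ.HyperEA

/-!
# Locally detected kernels
-/

set_option autoImplicit false

namespace Pool.Agent.H63N.FJ

open Pool.Agent.Y110.FJ
open Pool.Agent.Y462.SS (Closed)
open Pool.Agent.H65FJ

variable {C : ∀ (G : Type) [Group G], Prop}

/-- the extension criterion for the kernel `L` all of whose cyclic extensions in `G` are in `C` -/
theorem ext_absorbed (hC : ClosedE C) {G : Type} [Group G] (L : Subgroup G) [L.Normal]
    (hL : ∀ x : G, C ↥(L ⊔ Subgroup.zpowers x)) (hQ : C (G ⧸ L)) : C G := by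
  refine Pool.Agent.Y529.FJ.t_ext C hC G L ?_ hQ (fun x _ => hL x)
  have h1 := hL 1
  rwa [Subgroup.zpowers_one_eq_bot, sup_bot_eq] at h1

/-- **Locally detected kernels.** -/
theorem detected (hC : ClosedE C) {G : Type} [Group G] (L M : Subgroup G) [L.Normal] [M.Normal]
    (hLM : L ≤ M) (hM : C (G ⧸ M)) (hL : ∀ x : G, C ↥(L ⊔ Subgroup.zpowers x))
    (hK : ∀ E : Set G, E.Finite → E ⊆ M → ∃ (K : Subgroup G) (_ : K.Normal), L ≤ K ∧ C (G ⧸ K) ∧
      Subgroup.closure E ⊓ K ≤ L) : C G := by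
  classical
  refine ext_absorbed hC L hL ?_
  have hn : (M.map (QuotientGroup.mk' L)).Normal :=
    Subgroup.Normal.map ‹M.Normal› _ (QuotientGroup.mk'_surjective L)
  refine crit' hC (G ⧸ L) (M.map (QuotientGroup.mk' L)) ?_ ?_
  · exact hC.base.of_injective _ _ (QuotientGroup.quotientQuotientEquivQuotient L M hLM).toMonoidHom
      (QuotientGroup.quotientQuotientEquivQuotient L M hLM).injective hM
  · intro q
    refine ⟨1, one_mem _, ?_⟩
    intro Eb hEb hEM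
    rw [one_mul]
    obtain ⟨g, rfl⟩ := QuotientGroup.mk_surjective q
    -- lifts
    have h1 : ∀ y : G ⧸ L, ∃ x : G, (y ∈ Eb → x ∈ M) ∧ (x : G ⧸ L) = y := by
      intro y
      by_cases hy : y ∈ Eb
      · obtain ⟨x, hx, hxy⟩ := hEM hy
        exact ⟨x, fun _ => hx, hxy⟩
      · obtain ⟨x, rfl⟩ := QuotientGroup.mk_surjective y
        exact ⟨x, fun h => absurd h hy, rfl⟩
    choose l hl hl' using h1
    let E : Set G := l '' Eb
    have hEf : (E ∪ (fun x => g * x * g⁻¹) '' E).Finite :=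
      (hEb.image l).union ((hEb.image l).image _)
    have hEm : (E ∪ (fun x => g * x * g⁻¹) '' E) ⊆ M := by
      rintro x (⟨y, hy, rfl⟩ | ⟨_, ⟨y, hy, rfl⟩, rfl⟩)
      · exact hl y hy
      · exact ‹M.Normal›.conj_mem _ (hl y hy) _
    obtain ⟨K, hKn, hLK, hKC, hKE⟩ := hK _ hEf hEm
    let π : G ⧸ L →* G ⧸ K := QuotientGroup.lift L (QuotientGroup.mk' K)
      (fun x hx => (QuotientGroup.eq_one_iff _).2 (hLK hx))
    have hclo : ∀ y ∈ Subgroup.closure (Eb ∪ (fun x => (g : G ⧸ L) * x * (g : G ⧸ L)⁻¹) '' Eb),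
        ∃ x ∈ Subgroup.closure (E ∪ (fun x => g * x * g⁻¹) '' E), (x : G ⧸ L) = y := by
      intro y hy
      have h2 : Subgroup.closure (Eb ∪ (fun x => (g : G ⧸ L) * x * (g : G ⧸ L)⁻¹) '' Eb) ≤
          (Subgroup.closure (E ∪ (fun x => g * x * g⁻¹) '' E)).map (QuotientGroup.mk' L) := by
        rw [Subgroup.closure_le]
        rintro z (hz | ⟨z, hz, rfl⟩)
        · exact ⟨l z, Subgroup.subset_closure (Or.inl ⟨z, hz, rfl⟩), hl' z⟩
        · refine ⟨g * l z * g⁻¹, Subgroup.subset_closure (Or.inr ⟨l z, ⟨z, hz, rfl⟩, rfl⟩), ?_⟩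
          show ((g * l z * g⁻¹ : G) : G ⧸ L) = (g : G ⧸ L) * z * (g : G ⧸ L)⁻¹
          rw [QuotientGroup.mk_mul, QuotientGroup.mk_mul, QuotientGroup.mk_inv, hl' z]
      obtain ⟨x, hx, hxy⟩ := h2 hy
      exact ⟨x, hx, hxy⟩
    refine ⟨G ⧸ K, inferInstance, π.comp (Subgroup.subtype _), π (g : G ⧸ L), hKC, ?_, ?_⟩
    · rw [injective_iff_map_eq_one]
      rintro ⟨y, hy⟩ hy1
      obtain ⟨x, hx, rfl⟩ := hclo y hy
      have h3 : ((x : G) : G ⧸ K) = 1 := hy1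
      have h4 : x ∈ K := (QuotientGroup.eq_one_iff _).1 h3
      have h5 : x ∈ L := hKE ⟨hx, h4⟩
      apply Subtype.ext
      exact (QuotientGroup.eq_one_iff _).2 h5
    · intro x y hx hy
      show π (y : G ⧸ L) = π (g : G ⧸ L) * π (x : G ⧸ L) * (π (g : G ⧸ L))⁻¹
      rw [hy, map_mul, map_mul, map_inv]

/-- finite intersections of normal subgroups with quotients in `C` -/
theorem inf_mem (hC : Closed C) {G : Type} [Group G] (K K' : Subgroup G) [K.Normal] [K'.Normal]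
    (h : C (G ⧸ K)) (h' : C (G ⧸ K')) : C (G ⧸ (K ⊓ K')) := by
  let f : G →* (G ⧸ K) × (G ⧸ K') := (QuotientGroup.mk' K).prod (QuotientGroup.mk' K')
  have hf : f.ker = K ⊓ K' := by
    ext x
    rw [MonoidHom.mem_ker]
    constructor
    · intro hx
      have h1 : (QuotientGroup.mk' K x, QuotientGroup.mk' K' x) = (1 : (G ⧸ K) × (G ⧸ K')) := hx
      have h2 := Prod.mk.inj (h1.trans Prod.one_eq_mk)
      exact ⟨(QuotientGroup.eq_one_iff _).1 h2.1, (QuotientGroup.eq_one_iff _).1 h2.2⟩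
    · rintro ⟨h1, h2⟩
      show (QuotientGroup.mk' K x, QuotientGroup.mk' K' x) = _
      rw [Prod.one_eq_mk]
      exact Prod.ext ((QuotientGroup.eq_one_iff _).2 h1) ((QuotientGroup.eq_one_iff _).2 h2)
  let g : G ⧸ (K ⊓ K') →* (G ⧸ K) × (G ⧸ K') :=
    QuotientGroup.lift (K ⊓ K') f (fun x hx => by rw [← hf] at hx; exact hx)
  refine hC.of_injective _ _ g ?_ (hC.prod _ _ h h')
  rw [injective_iff_map_eq_one]
  intro y hy
  obtain ⟨x, rfl⟩ := QuotientGroup.mk_surjective y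
  have h1 : f x = 1 := hy
  rw [← MonoidHom.mem_ker, hf] at h1
  exact (QuotientGroup.eq_one_iff _).2 h1

theorem solv_of_chain {G : Type} [Group G] (A : Subgroup G) (f : ℕ → Subgroup G) (n : ℕ)
    (h0 : A ≤ f 0) (hf : ∀ i, ∀ a ∈ f i, ∀ b ∈ f i, a * b * a⁻¹ * b⁻¹ ∈ f (i + 1))
    (hn : f n ≤ ⊥) : Group.IsSolvable A := by
  have key : ∀ i, derivedSeries A i ≤ (f i).comap A.subtype := by
    intro i
    induction i with
    | zero => intro x _; exact h0 x.2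
    | succ i ih =>
      rw [derivedSeries_succ, Subgroup.commutator_le]
      intro a ha b hb
      exact hf i _ (ih ha) _ (ih hb)
  refine ⟨⟨n, ?_⟩⟩
  rw [eq_bot_iff]
  intro x hx
  have h1 : (x : G) ∈ f n := key n hx
  exact Subgroup.mem_bot.2 (Subtype.ext (Subgroup.mem_bot.1 (hn h1)))

theorem solv_quot {G : Type} [Group G] (K : Subgroup G) [K.Normal] (f : ℕ → Subgroup G) (n : ℕ)
    (h0 : ∀ a b : G, a * b * a⁻¹ * b⁻¹ ∈ f 0)
    (hf : ∀ i, ∀ a ∈ f i, ∀ b ∈ f i, a * b * a⁻¹ * b⁻¹ ∈ f (i + 1))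
    (hn : f n ≤ K) : Group.IsSolvable (G ⧸ K) := by
  have key : ∀ i, derivedSeries G (i + 1) ≤ f i := by
    intro i
    induction i with
    | zero =>
      rw [derivedSeries_succ, Subgroup.commutator_le]
      intro a _ b _
      exact h0 a b
    | succ i ih =>
      rw [derivedSeries_succ, Subgroup.commutator_le]
      intro a ha b hb
      exact hf i _ (ih ha) _ (ih hb)
  refine ⟨⟨n + 1, ?_⟩⟩
  rw [← map_derivedSeries_eq (QuotientGroup.mk'_surjective K), eq_bot_iff]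
  rintro _ ⟨x, hx, rfl⟩
  exact Subgroup.mem_bot.2 ((QuotientGroup.eq_one_iff _).2 (hn (key n hx)))

/-- the case of kernels with cyclic quotient, detected by solvable quotients -/
theorem core (hC : ClosedE C) (hS : ∀ (G : Type) [Group G], Group.IsSolvable G → C G)
    {G : Type} [Group G] (g : G) (L M : Subgroup G) [L.Normal] [M.Normal] (hLM : L ≤ M)
    (hg : M ⊔ Subgroup.zpowers g = ⊤) (hL : Group.IsSolvable L)
    (hK : ∀ E : Set G, E.Finite → E ⊆ M → ∃ (K : Subgroup G) (_ : K.Normal), L ≤ K ∧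
      (∃ (f : ℕ → Subgroup G) (n : ℕ), M ≤ f 0 ∧
        (∀ i, ∀ a ∈ f i, ∀ b ∈ f i, a * b * a⁻¹ * b⁻¹ ∈ f (i + 1)) ∧ f n ≤ K) ∧
      Subgroup.closure E ⊓ K ≤ L) : C G := by
  have hcomm : ∀ a b : G, a * b * a⁻¹ * b⁻¹ ∈ M := by
    have h1 : ∀ x : G, ∃ k : ℤ, (x : G ⧸ M) = (g : G ⧸ M) ^ k := by
      intro x
      have hx : x ∈ M ⊔ Subgroup.zpowers g := by rw [hg]; trivial
      obtain ⟨m, hm, z, hz, rfl⟩ := Subgroup.mem_sup_of_normal_left.1 hx
      obtain ⟨k, rfl⟩ := Subgroup.mem_zpowers_iff.1 hz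
      refine ⟨k, ?_⟩
      rw [QuotientGroup.mk_mul, (QuotientGroup.eq_one_iff _).2 hm, one_mul, QuotientGroup.mk_zpow]
    intro a b
    obtain ⟨i, hi⟩ := h1 a
    obtain ⟨j, hj⟩ := h1 b
    rw [← QuotientGroup.eq_one_iff, QuotientGroup.mk_mul, QuotientGroup.mk_mul,
      QuotientGroup.mk_mul, QuotientGroup.mk_inv, QuotientGroup.mk_inv, hi, hj]
    group
  have hsolv : ∀ (K : Subgroup G) [K.Normal], (∃ (f : ℕ → Subgroup G) (n : ℕ), M ≤ f 0 ∧
        (∀ i, ∀ a ∈ f i, ∀ b ∈ f i, a * b * a⁻¹ * b⁻¹ ∈ f (i + 1)) ∧ f n ≤ K) → C (G ⧸ K) := by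
    rintro K _ ⟨f, n, h0, hf, hn⟩
    exact hS _ (solv_quot K f n (fun a b => h0 (hcomm a b)) hf hn)
  refine detected hC L M hLM ?_ (fun x => hS _ (solv_sup L x hL)) ?_
  · exact hsolv M ⟨fun _ => M, 0, le_rfl, fun i a ha b hb =>
      mul_mem (mul_mem (mul_mem ha hb) (inv_mem ha)) (inv_mem hb), le_rfl⟩
  · intro E h1 h2
    obtain ⟨K, hKn, h3, h4, h5⟩ := hK E h1 h2
    exact ⟨K, hKn, h3, hsolv K h4, h5⟩

end Pool.Agent.H63N.FJ
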