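import Pool.Agent.H65FJ.HyperEA
import Pool.Agent.H65FJ.Refl

/-!
# Restricted direct products of centreless indecomposable groups
-/

set_option autoImplicit false

namespace Pool.Agent.H63N.FJ

section dir

variable {G V : Type} [Group G]

/-- `N` is the internal restricted direct product of the subgroups `A v` of `G`: elements of
different `A v` commute, each `A v` meets the subgroup generated by the others trivially, and the
`A v` generate `N`. -/
structure IsDirect (A : V → Subgroup G) (N : Subgroup G) : Prop where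
  comm : ∀ v w, v ≠ w → ∀ a ∈ A v, ∀ b ∈ A w, a * b = b * a
  indep : iSupIndep A
  sup : ⨆ v, A v = N

/-- the centre is trivial -/
def Centreless (M : Type) [Group M] : Prop := Subgroup.center M = ⊥

/-- `M` is directly indecomposable: nontrivial and not a direct product of two nontrivial
subgroups -/
def Indecomposable (M : Type) [Group M] : Prop :=
  Nontrivial M ∧ ∀ P Q : Subgroup M, (∀ a ∈ P, ∀ b ∈ Q, a * b = b * a) → P ⊓ Q = ⊥ → P ⊔ Q = ⊤ →
    P = ⊥ ∨ Q = ⊥

theorem mem_sup_comm {A B : Subgroup G} (h : ∀ a ∈ A, ∀ b ∈ B, a * b = b * a) {x : G}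
    (hx : x ∈ A ⊔ B) : ∃ a ∈ A, ∃ b ∈ B, x = a * b := by
  let P : Subgroup G :=
    { carrier := {x | ∃ a ∈ A, ∃ b ∈ B, x = a * b}
      one_mem' := ⟨1, one_mem _, 1, one_mem _, (one_mul 1).symm⟩
      mul_mem' := by
        rintro _ _ ⟨a, ha, b, hb, rfl⟩ ⟨a', ha', b', hb', rfl⟩
        refine ⟨a * a', mul_mem ha ha', b * b', mul_mem hb hb', ?_⟩
        have := h a' ha' b hb
        calc a * b * (a' * b') = a * (b * a') * b' := by group
          _ = a * (a' * b) * b' := by rw [this]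
          _ = a * a' * (b * b') := by group
      inv_mem' := by
        rintro _ ⟨a, ha, b, hb, rfl⟩
        refine ⟨a⁻¹, inv_mem ha, b⁻¹, inv_mem hb, ?_⟩
        rw [h a ha b hb, mul_inv_rev] }
  have h1 : A ⊔ B ≤ P := by
    refine sup_le ?_ ?_
    · intro a ha
      exact ⟨a, ha, 1, one_mem _, (mul_one a).symm⟩
    · intro b hb
      exact ⟨1, one_mem _, b, hb, (one_mul b).symm⟩
  exact h1 hx

/-- the product of the other factors -/
def K (A : V → Subgroup G) (v : V) : Subgroup G := ⨆ w, ⨆ (_ : w ≠ v), A w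

theorem A_le_K {A : V → Subgroup G} {v w : V} (h : w ≠ v) : A w ≤ K A v :=
  le_iSup₂_of_le w h le_rfl

variable {A : V → Subgroup G} {N : Subgroup G}

theorem IsDirect.comm_K (h : IsDirect A N) (v : V) : ∀ a ∈ A v, ∀ b ∈ K A v, a * b = b * a := by
  intro a ha b hb
  have h1 : K A v ≤ Subgroup.centralizer {a} := by
    refine iSup₂_le fun w hw => ?_
    intro y hy
    rw [Subgroup.mem_centralizer_singleton_iff]
    exact h.comm w v hw y hy a ha
  have h2 := h1 hb
  rw [Subgroup.mem_centralizer_singleton_iff] at h2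
  exact h2.symm

theorem IsDirect.A_le (h : IsDirect A N) (v : V) : A v ≤ N := h.sup ▸ le_iSup A v

theorem IsDirect.K_le (h : IsDirect A N) (v : V) : K A v ≤ N :=
  iSup₂_le fun w _ => h.A_le w

theorem IsDirect.sup_K (h : IsDirect A N) (v : V) : A v ⊔ K A v = N := by
  apply le_antisymm (sup_le (h.A_le v) (h.K_le v))
  rw [← h.sup]
  refine iSup_le fun w => ?_
  by_cases hw : w = v
  · rw [hw]; exact le_sup_left
  · exact (A_le_K hw).trans le_sup_right

theorem IsDirect.eq_one (h : IsDirect A N) (v : V) {x : G} (hx : x ∈ A v) (hx' : x ∈ K A v) :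
    x = 1 := by
  have := (h.indep v).le_bot (x := x) ⟨hx, hx'⟩
  exact Subgroup.mem_bot.1 this

theorem exists_fin {x : G} (hx : x ∈ ⨆ v, A v) : ∃ S : Finset V, x ∈ ⨆ v ∈ S, A v := by
  classical
  induction hx using Subgroup.iSup_induction' with
  | hp i x hx =>
    exact ⟨{i}, Subgroup.mem_iSup_of_mem i (Subgroup.mem_iSup_of_mem (by simp) hx)⟩
  | h1 => exact ⟨∅, one_mem _⟩
  | hmul x y _ _ hx hy =>
    obtain ⟨S, hS⟩ := hx
    obtain ⟨T, hT⟩ := hy
    refine ⟨S ∪ T, mul_mem ?_ ?_⟩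
    · exact (iSup₂_le fun w hw => le_iSup₂_of_le (f := fun v (_ : v ∈ S ∪ T) => A v) w
        (Finset.mem_union_left _ hw) le_rfl : (⨆ v ∈ S, A v) ≤ _) hS
    · exact (iSup₂_le fun w hw => le_iSup₂_of_le (f := fun v (_ : v ∈ S ∪ T) => A v) w
        (Finset.mem_union_right _ hw) le_rfl : (⨆ v ∈ T, A v) ≤ _) hT

theorem IsDirect.one_of (h : IsDirect A N) (S : Finset V) {x : G} (hx : x ∈ ⨆ v ∈ S, A v)
    (hK : ∀ v, x ∈ K A v) : x = 1 := by
  classical
  induction S using Finset.induction_on generalizing x with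
  | empty => simpa using hx
  | @insert v S hv ih =>
    rw [Finset.iSup_insert] at hx
    have hle : (⨆ w ∈ S, A w) ≤ K A v :=
      iSup₂_le fun w hw => A_le_K (fun e => hv (e ▸ hw))
    obtain ⟨a, ha, b, hb, rfl⟩ := mem_sup_comm (fun a ha b hb => h.comm_K v a ha b (hle hb)) hx
    have h1 : a ∈ K A v := by
      have := mul_mem (hK v) (inv_mem (hle hb))
      rwa [mul_inv_cancel_right] at this
    have h2 := h.eq_one v ha h1
    subst h2
    rw [one_mul] at hK ⊢
    exact ih hb hK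

theorem IsDirect.central (h : IsDirect A N) (hc : ∀ v, Centreless ↥(A v)) {z : G} (hz : z ∈ N)
    (hz' : ∀ v, ∀ y ∈ A v, z * y = y * z) : z = 1 := by
  rw [← h.sup] at hz
  obtain ⟨S, hS⟩ := exists_fin hz
  refine h.one_of S hS fun v => ?_
  rw [h.sup, ← h.sup_K v] at hz
  obtain ⟨a, ha, b, hb, rfl⟩ := mem_sup_comm (h.comm_K v) hz
  have h1 : (⟨a, ha⟩ : ↥(A v)) ∈ Subgroup.center ↥(A v) := by
    rw [Subgroup.mem_center_iff]
    rintro ⟨y, hy⟩
    apply Subtype.ext
    show y * a = a * y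
    have h2 := hz' v y hy
    have h3 := h.comm_K v y hy b hb
    have h4 : a * y * b = y * a * b := by
      calc a * y * b = a * (y * b) := by group
        _ = a * (b * y) := by rw [h3]
        _ = a * b * y := by group
        _ = y * (a * b) := h2
        _ = y * a * b := by group
    exact (mul_right_cancel h4).symm
  rw [hc v, Subgroup.mem_bot] at h1
  have h2 : a = 1 := congrArg Subtype.val h1
  rw [h2, one_mul]
  exact hb

/-- in a restricted direct product of centreless groups each factor is the direct product of its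
intersections with the factors of any other decomposition -/
theorem IsDirect.split (h : IsDirect A N) (hc : ∀ v, Centreless ↥(A v)) {P Q : Subgroup G}
    (hPQ : ∀ a ∈ P, ∀ b ∈ Q, a * b = b * a) (hd : P ⊓ Q = ⊥) (hs : P ⊔ Q = N) (v : V) {x : G}
    (hx : x ∈ A v) : ∃ a ∈ P, a ∈ A v ∧ ∃ b ∈ Q, b ∈ A v ∧ x = a * b := by
  obtain ⟨a, ha, b, hb, rfl⟩ := mem_sup_comm hPQ (x := x) (by rw [hs]; exact h.A_le v hx)
  have haN : a ∈ N := by rw [← hs]; exact Subgroup.mem_sup_left ha
  obtain ⟨a1, ha1, k, hk, hak⟩ := mem_sup_comm (h.comm_K v) (x := a) (by rw [h.sup_K]; exact haN)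
  have hk1 : k = 1 := by
    refine h.central hc (h.K_le v hk) fun w y hy => ?_
    by_cases hw : w = v
    · subst hw
      exact (h.comm_K w y hy k hk).symm
    · have hyN : y ∈ P ⊔ Q := by rw [hs]; exact h.A_le w hy
      obtain ⟨a', ha', b', hb', hy'⟩ := mem_sup_comm hPQ hyN
      have h1 : (a * b) * y = y * (a * b) := h.comm v w (Ne.symm hw) _ hx y hy
      rw [hy'] at h1
      have e1 : a' * b = b * a' := hPQ a' ha' b hb
      have e2 : a * b' = b' * a := hPQ a ha b' hb'
      have h2 : (a * a') * (b * b') = (a' * a) * (b' * b) := by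
        calc (a * a') * (b * b') = a * (a' * b) * b' := by group
          _ = a * (b * a') * b' := by rw [e1]
          _ = a * b * (a' * b') := by group
          _ = a' * b' * (a * b) := h1
          _ = a' * (b' * a) * b := by group
          _ = a' * (a * b') * b := by rw [e2]
          _ = (a' * a) * (b' * b) := by group
      have h3 : (a' * a)⁻¹ * (a * a') = (b' * b) * (b * b')⁻¹ := by
        rw [inv_mul_eq_iff_eq_mul, ← mul_assoc, ← h2]
        group
      have h4 : (a' * a)⁻¹ * (a * a') ∈ P ⊓ Q := by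
        refine Subgroup.mem_inf.2 ⟨mul_mem (inv_mem (mul_mem ha' ha)) (mul_mem ha ha'), ?_⟩
        rw [h3]
        exact mul_mem (mul_mem hb' hb) (inv_mem (mul_mem hb hb'))
      rw [hd, Subgroup.mem_bot, inv_mul_eq_one] at h4
      -- `a` commutes with `y`
      have h5 : a * y = y * a := by
        rw [hy']
        calc a * (a' * b') = (a * a') * b' := by group
          _ = (a' * a) * b' := by rw [h4]
          _ = a' * (a * b') := by group
          _ = a' * (b' * a) := by rw [e2]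
          _ = a' * b' * a := by group
      have h6 : a1 * y = y * a1 := h.comm v w (Ne.symm hw) a1 ha1 y hy
      have h7 : k = a1⁻¹ * a := by rw [hak]; group
      rw [h7]
      calc a1⁻¹ * a * y = a1⁻¹ * (a * y) := by group
        _ = a1⁻¹ * (y * a) := by rw [h5]
        _ = a1⁻¹ * (y * a1) * a1⁻¹ * a := by group
        _ = a1⁻¹ * (a1 * y) * a1⁻¹ * a := by rw [h6]
        _ = y * (a1⁻¹ * a) := by group
  have haA : a ∈ A v := by rw [hak, hk1, mul_one]; exact ha1
  refine ⟨a, ha, haA, b, hb, ?_, rfl⟩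
  have := mul_mem (inv_mem haA) hx
  rwa [inv_mul_cancel_left] at this

theorem IsDirect.le_or_le (h : IsDirect A N) (hc : ∀ v, Centreless ↥(A v))
    (hi : ∀ v, Indecomposable ↥(A v)) {P Q : Subgroup G}
    (hPQ : ∀ a ∈ P, ∀ b ∈ Q, a * b = b * a) (hd : P ⊓ Q = ⊥) (hs : P ⊔ Q = N) (v : V) :
    A v ≤ P ∨ A v ≤ Q := by
  have hsp := fun {x : G} (hx : x ∈ A v) => h.split hc hPQ hd hs v hx
  rcases (hi v).2 (P.subgroupOf (A v)) (Q.subgroupOf (A v))
    (fun a ha b hb => Subtype.ext (hPQ a ha b hb))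
    (by
      rw [eq_bot_iff]
      rintro ⟨x, hx⟩ ⟨h1, h2⟩
      have h3 : x ∈ P ⊓ Q := ⟨h1, h2⟩
      rw [hd, Subgroup.mem_bot] at h3
      rw [Subgroup.mem_bot]
      exact Subtype.ext h3)
    (by
      rw [eq_top_iff]
      rintro ⟨x, hx⟩ _
      obtain ⟨a, ha, ha', b, hb, hb', rfl⟩ := hsp hx
      exact mul_mem (Subgroup.mem_sup_left (show (⟨a, ha'⟩ : ↥(A v)) ∈ P.subgroupOf (A v) from ha))
        (Subgroup.mem_sup_right (show (⟨b, hb'⟩ : ↥(A v)) ∈ Q.subgroupOf (A v) from hb))) with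
    h0 | h0
  · right
    intro x hx
    obtain ⟨a, ha, ha', b, hb, hb', rfl⟩ := hsp hx
    have h1 : (⟨a, ha'⟩ : ↥(A v)) ∈ P.subgroupOf (A v) := ha
    rw [h0, Subgroup.mem_bot] at h1
    have h2 : a = 1 := congrArg Subtype.val h1
    rw [h2, one_mul]
    exact hb
  · left
    intro x hx
    obtain ⟨a, ha, ha', b, hb, hb', rfl⟩ := hsp hx
    have h1 : (⟨b, hb'⟩ : ↥(A v)) ∈ Q.subgroupOf (A v) := hb
    rw [h0, Subgroup.mem_bot] at h1
    have h2 : b = 1 := congrArg Subtype.val h1
    rw [h2, mul_one]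
    exact ha

/-- conjugation -/
def cj (g : G) (H : Subgroup G) : Subgroup G := H.map (MulAut.conj g).toMonoidHom

theorem mem_cj {g : G} {H : Subgroup G} {x : G} : x ∈ cj g H ↔ g⁻¹ * x * g ∈ H := by
  constructor
  · rintro ⟨y, hy, rfl⟩
    show g⁻¹ * (g * y * g⁻¹) * g ∈ H
    have : g⁻¹ * (g * y * g⁻¹) * g = y := by group
    rw [this]
    exact hy
  · intro h
    refine ⟨_, h, ?_⟩
    show g * (g⁻¹ * x * g) * g⁻¹ = x
    group

theorem conj_mem_cj {g : G} {H : Subgroup G} {x : G} (h : x ∈ H) : g * x * g⁻¹ ∈ cj g H :=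
  ⟨x, h, rfl⟩

theorem cj_cj (g h : G) (H : Subgroup G) : cj g (cj h H) = cj (g * h) H := by
  ext x
  rw [mem_cj, mem_cj, mem_cj]
  have : h⁻¹ * (g⁻¹ * x * g) * h = (g * h)⁻¹ * x * (g * h) := by group
  rw [this]

theorem cj_one (H : Subgroup G) : cj 1 H = H := by
  ext x
  rw [mem_cj]
  simp

theorem cj_mono {g : G} {H L : Subgroup G} (h : H ≤ L) : cj g H ≤ cj g L := Subgroup.map_mono h

theorem IsDirect.nontriv (hi : ∀ v, Indecomposable ↥(A v)) (v : V) : A v ≠ ⊥ := by
  intro h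
  obtain ⟨⟨x, hx⟩, ⟨y, hy⟩, hxy⟩ := (hi v).1
  rw [h, Subgroup.mem_bot] at hx hy
  exact hxy (Subtype.ext (hx.trans hy.symm))

theorem IsDirect.eq_of_le (h : IsDirect A N) (hi : ∀ v, Indecomposable ↥(A v)) {u v : V}
    (huv : A u ≤ A v) : u = v := by
  by_contra hne
  apply IsDirect.nontriv hi u
  rw [eq_bot_iff]
  intro x hx
  exact Subgroup.mem_bot.2 (h.eq_one v (huv hx) (A_le_K hne hx))

theorem IsDirect.exists_le (h : IsDirect A N) (hN : N.Normal) (hc : ∀ v, Centreless ↥(A v))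
    (hi : ∀ v, Indecomposable ↥(A v)) (g : G) (u : V) : ∃ v, A v ≤ cj g (A u) := by
  have hcN : cj g N = N := by
    ext x
    rw [mem_cj]
    constructor
    · intro h1
      have h2 := hN.conj_mem _ h1 g
      have h3 : g * (g⁻¹ * x * g) * g⁻¹ = x := by group
      rwa [h3] at h2
    · intro h1
      have h2 := hN.conj_mem _ h1 g⁻¹
      rwa [inv_inv] at h2
  have hPQ : ∀ a ∈ cj g (A u), ∀ b ∈ cj g (K A u), a * b = b * a := by
    rintro _ ⟨a, ha, rfl⟩ _ ⟨b, hb, rfl⟩
    rw [← map_mul, ← map_mul, h.comm_K u a ha b hb]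
  have hd : cj g (A u) ⊓ cj g (K A u) = ⊥ := by
    rw [eq_bot_iff]
    rintro x ⟨h1, h2⟩
    have h1' := mem_cj.1 h1
    have h2' := mem_cj.1 h2
    have h3 := h.eq_one u h1' h2'
    rw [Subgroup.mem_bot]
    have h4 : x = g * (g⁻¹ * x * g) * g⁻¹ := by group
    rw [h4, h3]
    group
  have hs : cj g (A u) ⊔ cj g (K A u) = N := by
    unfold cj
    rw [← Subgroup.map_sup, h.sup_K]
    exact hcN
  by_contra hcon
  push Not at hcon
  have h1 : ∀ v, A v ≤ cj g (K A u) := fun v =>
    (h.le_or_le hc hi hPQ hd hs v).resolve_left (hcon v)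
  have h2 : N ≤ cj g (K A u) := by
    rw [← h.sup]
    exact iSup_le h1
  have h3 : cj g (A u) = ⊥ := by
    rw [eq_bot_iff, ← hd]
    refine le_inf le_rfl ?_
    exact (le_sup_left.trans hs.le).trans h2
  apply IsDirect.nontriv hi u
  have h4 := congrArg (cj g⁻¹) h3
  rw [cj_cj, inv_mul_cancel, cj_one] at h4
  rw [h4]
  exact Subgroup.map_bot _

theorem IsDirect.exists_eq (h : IsDirect A N) (hN : N.Normal) (hc : ∀ v, Centreless ↥(A v))
    (hi : ∀ v, Indecomposable ↥(A v)) (g : G) (u : V) : ∃ v, A v = cj g (A u) := by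
  obtain ⟨v, hv⟩ := h.exists_le hN hc hi g u
  obtain ⟨w, hw⟩ := h.exists_le hN hc hi g⁻¹ v
  have h1 : A w ≤ A u := by
    refine hw.trans ((cj_mono hv).trans ?_)
    rw [cj_cj, inv_mul_cancel, cj_one]
  have h2 := h.eq_of_le hi h1
  subst h2
  refine ⟨v, le_antisymm hv ?_⟩
  have h3 := cj_mono (g := g) hw
  rw [cj_cj, mul_inv_cancel, cj_one] at h3
  exact h3

/-- conjugation permutes the factors -/
theorem IsDirect.exists_perm (h : IsDirect A N) (hN : N.Normal) (hc : ∀ v, Centreless ↥(A v))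
    (hi : ∀ v, Indecomposable ↥(A v)) (g : G) : ∃ s : Equiv.Perm V, ∀ v, A (s v) = cj g (A v) := by
  choose s hs using h.exists_eq hN hc hi g
  choose t ht using h.exists_eq hN hc hi g⁻¹
  refine ⟨⟨s, t, fun v => ?_, fun v => ?_⟩, hs⟩
  · apply h.eq_of_le hi
    rw [ht, hs, cj_cj, inv_mul_cancel, cj_one]
  · apply h.eq_of_le hi
    rw [hs, ht, cj_cj, mul_inv_cancel, cj_one]

end dir

end Pool.Agent.H63N.FJ
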