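import Pool.Agent.H65FJ.HyperEA

/-!
# Ascending series of normal subgroups (the members of a set `S`)

By helper325, after `H65FJ.hyper` of helper65.
-/

set_option autoImplicit false

namespace Pool.Agent.H63N.FJ

open Pool.Agent.Y110.FJ
open Pool.Agent.H65FJ

variable {C : ∀ (G : Type) [Group G], Prop}

/-- Ascending series of normal subgroups: transfinite induction along a set `S` of normal
subgroups. -/
theorem hyperS (hC : ClosedE C) (G : Type) [Group G]
    (S : Set (Subgroup G)) (hbS : ⊥ ∈ S)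
    (hsup : ∀ T ⊆ S, T.Nonempty → IsChain (· ≤ ·) T → sSup T ∈ S)
    (h : ∀ (K : Subgroup G) [K.Normal], K ∈ S → K ≠ ⊤ → ∃ L : Subgroup G, L.Normal ∧ L ∈ S ∧ K < L ∧
      ∀ g : G, C ↥((L ⊔ Subgroup.zpowers g).map (QuotientGroup.mk' K))) : C G := by
  classical
  let Z : Set (Subgroup G) := {K | (K.Normal ∧ K ∈ S) ∧ ∀ g : G, C ↥(K ⊔ Subgroup.zpowers g)}
  have hbot : (⊥ : Subgroup G) ∈ Z := by
    refine ⟨⟨inferInstance, hbS⟩, fun g => ?_⟩
    rw [bot_sup_eq]
    exact cyc hC.base G g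
  have hchain : ∀ c ⊆ Z, IsChain (· ≤ ·) c → ∀ y ∈ c, ∃ ub ∈ Z, ∀ z ∈ c, z ≤ ub := by
    intro c hc hch y hy
    have hdir : DirectedOn (· ≤ ·) c := hch.directedOn
    have hne : c.Nonempty := ⟨y, hy⟩
    refine ⟨sSup c, ⟨⟨?_, hsup c (fun K hK => (hc hK).1.2) hne hch⟩, ?_⟩, fun z hz => le_sSup hz⟩
    · constructor
      intro n hn g
      rw [Subgroup.mem_sSup_of_directedOn hne hdir] at hn ⊢
      obtain ⟨K, hK, hnK⟩ := hn
      exact ⟨K, hK, (hc hK).1.1.conj_mem n hnK g⟩
    · intro g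
      have : Nonempty c := ⟨⟨y, hy⟩⟩
      have hle : ∀ K : c, K.1 ⊔ Subgroup.zpowers g ≤ sSup c ⊔ Subgroup.zpowers g := fun K =>
        sup_le_sup_right (le_sSup K.2) _
      refine Pool.Agent.Y430.SS.of_directed hC.base _ c ?_
        (fun K => (K.1 ⊔ Subgroup.zpowers g).subgroupOf (sSup c ⊔ Subgroup.zpowers g)) ?_ ?_ ?_
      · rintro ⟨i, hi⟩ ⟨j, hj⟩
        obtain ⟨k, hk, h1, h2⟩ := hdir i hi j hj
        exact ⟨⟨k, hk⟩, h1, h2⟩
      · intro K L hKL x hx
        exact sup_le_sup_right (show K.1 ≤ L.1 from hKL) _ hx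
      · rintro ⟨x, hx⟩
        have : (sSup c).Normal := by
          constructor
          intro n hn g
          rw [Subgroup.mem_sSup_of_directedOn hne hdir] at hn ⊢
          obtain ⟨K, hK, hnK⟩ := hn
          exact ⟨K, hK, (hc hK).1.1.conj_mem n hnK g⟩
        obtain ⟨n, hn, z, hz, rfl⟩ := Subgroup.mem_sup_of_normal_left.1 hx
        rw [Subgroup.mem_sSup_of_directedOn hne hdir] at hn
        obtain ⟨K, hK, hnK⟩ := hn
        exact ⟨⟨K, hK⟩, mul_mem (Subgroup.mem_sup_left hnK) (Subgroup.mem_sup_right hz)⟩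
      · intro K
        exact hC.base.of_injective _ _ (Subgroup.subgroupOfEquivOfLe (hle K)).toMonoidHom
          (Subgroup.subgroupOfEquivOfLe (hle K)).injective ((hc K.2).2 g)
  obtain ⟨K, _, hK⟩ := zorn_le_nonempty₀ Z hchain ⊥ hbot
  have hKn : K.Normal := hK.prop.1.1
  by_cases hKt : K = ⊤
  · have h1 := hK.prop.2 1
    rw [Subgroup.zpowers_one_eq_bot, sup_bot_eq, hKt] at h1
    exact hC.base.of_injective G _ (Subgroup.topEquiv (G := G)).symm.toMonoidHom
      (Subgroup.topEquiv (G := G)).symm.injective h1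
  · exfalso
    obtain ⟨L, hL, hLS, hKL, hLg⟩ := h K hK.prop.1.2 hKt
    refine absurd (hK.le_of_ge (y := L) ⟨⟨hL, hLS⟩, fun g => ?_⟩ hKL.le) (not_le_of_gt hKL)
    -- extension
    let G' : Subgroup G := L ⊔ Subgroup.zpowers g
    let π := (QuotientGroup.mk' K).subgroupMap G'
    have hπ : ∀ x : G', x ∈ π.ker → (x : G) ∈ K := by
      intro x hx
      have h1 : (QuotientGroup.mk' K) (x : G) = 1 := congrArg Subtype.val hx
      exact (QuotientGroup.eq_one_iff _).1 h1
    refine Pool.Agent.Y529.FJ.t_ext C hC G' π.ker ?_ ?_ ?_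
    · have h1 := hK.prop.2 1
      rw [Subgroup.zpowers_one_eq_bot, sup_bot_eq] at h1
      refine hC.base.of_injective _ K ((G'.subtype.comp π.ker.subtype).codRestrict K
        (fun x => hπ x.1 x.2)) ?_ h1
      intro x y hxy
      have h2 : ((x.1 : G') : G) = ((y.1 : G') : G) := congrArg (fun z : K => (z : G)) hxy
      exact Subtype.ext (Subtype.ext h2)
    · exact hC.base.of_injective _ _ (QuotientGroup.kerLift π) (QuotientGroup.kerLift_injective π)
        (hLg g)
    · intro x _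
      have hle : ∀ y : ↥(π.ker ⊔ Subgroup.zpowers x), ((y : G') : G) ∈
          K ⊔ Subgroup.zpowers (x : G) := by
        intro y
        have h1 : (π.ker ⊔ Subgroup.zpowers x).map G'.subtype ≤ K ⊔ Subgroup.zpowers (x : G) := by
          rw [Subgroup.map_sup]
          refine sup_le_sup ?_ ?_
          · rintro _ ⟨z, hz, rfl⟩; exact hπ z hz
          · rw [MonoidHom.map_zpowers]; rfl
        exact h1 ⟨y, y.2, rfl⟩
      refine hC.base.of_injective _ _ ((G'.subtype.comp (Subgroup.subtype _)).codRestrict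
        (K ⊔ Subgroup.zpowers (x : G)) hle) ?_ (hK.prop.2 (x : G))
      intro y z hyz
      have h2 : ((y.1 : G') : G) = ((z.1 : G') : G) :=
        congrArg (fun z : ↥(K ⊔ Subgroup.zpowers (x : G)) => (z : G)) hyz
      exact Subtype.ext (Subtype.ext h2)


end Pool.Agent.H63N.FJ
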