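import Pool.Agent.H63N.FJ.Direct

/-!
# Kernels which are restricted direct products of centreless indecomposable groups
-/

set_option autoImplicit false

namespace Pool.Agent.H63N.FJ

open Pool.Agent.Y110.FJ
open Pool.Agent.Y462.SS (Closed)
open Pool.Agent.H65FJ

variable {C : ∀ (G : Type) [Group G], Prop}

/-- all semidirect products of `M` with the infinite cyclic group are in the class `C` -/
def Absorbs (C : ∀ (G : Type) [Group G], Prop) (M : Type) [Group M] : Prop :=
  ∀ φ : MulAut M, C (M ⋊[zpowersHom (MulAut M) φ] Multiplicative ℤ)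

theorem mt_inj {M H : Type} [Group M] [Group H] (σ : MulAut M) (k : MT M σ →* H)
    (f : M →* H) (u : H) (h1 : ∀ x, k (SemidirectProduct.inl x) = f x) (h2 : k (st σ) = u)
    (h : ∀ (x : M) (n : ℤ), f x * u ^ n = 1 → x = 1 ∧ n = 0) : Function.Injective k := by
  rw [injective_iff_map_eq_one]
  intro z hz
  have h3 : z = SemidirectProduct.inl z.left * (st σ) ^ (Multiplicative.toAdd z.right) := by
    rw [st_zpow]
    exact (SemidirectProduct.inl_left_mul_inr_right z).symm
  rw [h3, map_mul, map_zpow, h1, h2] at hz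
  obtain ⟨h4, h5⟩ := h _ _ hz
  rw [h3, h4, h5]
  simp

theorem range_mem (hC : Closed C) {M H : Type} [Group M] [Group H] (k : M →* H)
    (hk : Function.Injective k) (L : Subgroup H) (hL : L ≤ k.range) (hM : C M) : C ↥L :=
  hC.of_injective _ _ ((MonoidHom.ofInjective hk).symm.toMonoidHom.comp
      (Subgroup.inclusion hL)) ((MonoidHom.ofInjective hk).symm.injective.comp
        (Subgroup.inclusion_injective hL)) hM

theorem inl_mul_st {M : Type} [Group M] (σ : MulAut M) (x : M) (n : ℤ)
    (h : (SemidirectProduct.inl x : MT M σ) * (st σ) ^ n = 1) : x = 1 ∧ n = 0 := by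
  rw [st_zpow] at h
  have h4 := congrArg (fun z => z.left) h
  have h5 := congrArg (fun z => z.right) h
  simp only [SemidirectProduct.mul_left, SemidirectProduct.left_inl,
    SemidirectProduct.right_inl, SemidirectProduct.left_inr, map_one, mul_one,
    SemidirectProduct.one_left] at h4
  simp only [SemidirectProduct.mul_right, SemidirectProduct.right_inl,
    SemidirectProduct.right_inr, one_mul, SemidirectProduct.one_right] at h5
  exact ⟨h4, h5⟩

section

variable {G V : Type} [Group G] {A : V → Subgroup G} {N : Subgroup G}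

theorem IsDirect.exists_F (h : IsDirect A N) :
    ∃ F : GrP (⊤ : SimpleGraph V) (fun v => ↥(A v)) →* G,
      (∀ v a, F (GrP.of (⊤ : SimpleGraph V) (fun v => ↥(A v)) v a) = a) ∧
      Function.Injective F ∧ F.range = N := by
  classical
  obtain ⟨F, hF⟩ := exists_lift (Λ := (⊤ : SimpleGraph V)) (A := fun v => ↥(A v))
    (fun v => (A v).subtype) (fun v w hvw a b => h.comm v w (by simpa using hvw) a a.2 b b.2)
  have hF' : ∀ v (a : ↥(A v)), F (GrP.of (⊤ : SimpleGraph V) (fun v => ↥(A v)) v a) = a := hF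
  refine ⟨F, hF', ?_, ?_⟩
  · have key : ∀ (S : Finset V) (x : GrP (⊤ : SimpleGraph V) (fun v => ↥(A v))),
        x ∈ Dat.NS (⊤ : SimpleGraph V) (fun v => ↥(A v)) (S : Set V) → F x = 1 → x = 1 := by
      intro S
      induction S using Finset.induction_on with
      | empty =>
        intro x hx _
        have h1 : Dat.NS (⊤ : SimpleGraph V) (fun v => ↥(A v)) ((∅ : Finset V) : Set V) ≤ ⊥ := by
          unfold Dat.NS
          rw [Subgroup.closure_le]
          rintro y ⟨v, hv, -⟩
          simp at hv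
        exact Subgroup.mem_bot.1 (h1 hx)
      | @insert v S hv ih =>
        intro x hx hFx
        have hle : Dat.NS (⊤ : SimpleGraph V) (fun v => ↥(A v)) ((insert v S : Finset V) : Set V) ≤
            Dat.Ag (⊤ : SimpleGraph V) (fun v => ↥(A v)) v ⊔
              Dat.NS (⊤ : SimpleGraph V) (fun v => ↥(A v)) (S : Set V) := by
          unfold Dat.NS
          rw [Subgroup.closure_le]
          rintro y ⟨w, hw, hy⟩
          rcases Finset.mem_insert.1 (Finset.mem_coe.1 hw) with rfl | hw
          · exact Subgroup.mem_sup_left hy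
          · exact Subgroup.mem_sup_right (Subgroup.subset_closure ⟨w, hw, hy⟩)
        have hcomm : ∀ a ∈ Dat.Ag (⊤ : SimpleGraph V) (fun v => ↥(A v)) v,
            ∀ b ∈ Dat.NS (⊤ : SimpleGraph V) (fun v => ↥(A v)) (S : Set V), a * b = b * a := by
          intro a ha b hb
          have h2 : Dat.NS (⊤ : SimpleGraph V) (fun v => ↥(A v)) (S : Set V) ≤
              Subgroup.centralizer {a} := by
            unfold Dat.NS
            rw [Subgroup.closure_le]
            rintro y ⟨w, hw, ⟨y, rfl⟩⟩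
            obtain ⟨a, rfl⟩ := ha
            show _ ∈ Subgroup.centralizer _
            rw [Subgroup.mem_centralizer_singleton_iff]
            refine of_comm (Λ := (⊤ : SimpleGraph V)) (A := fun v => ↥(A v)) ?_ y a
            simp only [SimpleGraph.top_adj]
            rintro rfl
            exact hv hw
          have h3 := h2 hb
          rw [Subgroup.mem_centralizer_singleton_iff] at h3
          exact h3.symm
        obtain ⟨_, ⟨a, rfl⟩, y, hy, rfl⟩ := mem_sup_comm hcomm (hle hx)
        have hFy : F y ∈ K A v := by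
          have h4 : Dat.NS (⊤ : SimpleGraph V) (fun v => ↥(A v)) (S : Set V) ≤
              (K A v).comap F := by
            unfold Dat.NS
            rw [Subgroup.closure_le]
            rintro y ⟨w, hw, ⟨y, rfl⟩⟩
            show F _ ∈ K A v
            rw [hF']
            refine A_le_K (A := A) (v := v) (w := w) ?_ y.2
            rintro rfl
            exact hv hw
          exact h4 hy
        rw [map_mul, hF'] at hFx
        have h5 : (a : G) ∈ K A v := by
          have h6 : (a : G) = (F y)⁻¹ := eq_inv_of_mul_eq_one_left hFx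
          rw [h6]
          exact inv_mem hFy
        have h7 := h.eq_one v a.2 h5
        have h8 : a = 1 := Subtype.ext h7
        rw [h8, map_one, one_mul]
        rw [h7, one_mul] at hFx
        exact ih y hy hFx
    rw [injective_iff_map_eq_one]
    intro x hx
    obtain ⟨S, hS⟩ := Dat.exists_NS x
    exact key S x hS hx
  · apply le_antisymm
    · rintro _ ⟨x, rfl⟩
      refine grp_ind (P := fun x => F x ∈ N) ?_ ?_ ?_ x
      · rw [map_one]; exact one_mem _
      · intro x y hx hy
        rw [map_mul]; exact mul_mem hx hy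
      · intro v a
        rw [hF']
        exact h.A_le v a.2
    · rw [← h.sup]
      refine iSup_le fun v a ha => ⟨GrP.of (⊤ : SimpleGraph V) (fun v => ↥(A v)) v ⟨a, ha⟩, ?_⟩
      rw [hF']

theorem absorbs_mem (hC : Closed C) {M : Type} [Group M] (h : Absorbs C M) : C M :=
  hC.of_injective _ _ (SemidirectProduct.inl : M →* M ⋊[zpowersHom (MulAut M) 1] Multiplicative ℤ)
    SemidirectProduct.inl_injective (h 1)

theorem pow_perm {g : G} {s : Equiv.Perm V} (hs : ∀ v, A (s v) = cj g (A v)) (c : ℕ)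
    (v : V) : A ((s ^ c) v) = cj (g ^ c) (A v) := by
  induction c with
  | zero => rw [pow_zero, pow_zero, cj_one]; rfl
  | succ c ih => rw [pow_succ', pow_succ', Equiv.Perm.mul_apply, hs, ih, cj_cj]

/-- conjugation by an element which normalizes a subgroup -/
def cjAut (u : G) (H : Subgroup G) (hu : cj u H = H) : MulAut ↥H where
  toFun x := ⟨u * x * u⁻¹, hu.le (conj_mem_cj x.2)⟩
  invFun x := ⟨u⁻¹ * x * u, mem_cj.1 (by rw [hu]; exact x.2)⟩
  left_inv x := Subtype.ext (by show u⁻¹ * (u * x * u⁻¹) * u = x; group)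
  right_inv x := Subtype.ext (by show u * (u⁻¹ * x * u) * u⁻¹ = x; group)
  map_mul' x y := Subtype.ext (by show u * (x * y) * u⁻¹ = u * x * u⁻¹ * (u * y * u⁻¹); group)

theorem zpow_not_mem {g : G} (hg : ∀ n : ℕ, 0 < n → g ^ n ∉ N) {n : ℤ} (h : g ^ n ∈ N) :
    n = 0 := by
  rcases Int.eq_nat_or_neg n with ⟨m, rfl | rfl⟩
  · rcases Nat.eq_zero_or_pos m with rfl | hm
    · rfl
    · exact absurd (by simpa using h) (hg m hm)
  · rcases Nat.eq_zero_or_pos m with rfl | hm
    · rfl
    · exact absurd (by simpa using h) (hg m hm)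

/-- the mapping torus inside the group -/
theorem mt_of_sup (hC : Closed C) (H : Subgroup G) (u : G) (hu : cj u H = H)
    (hn : ∀ n : ℤ, u ^ n ∈ H → n = 0) (h : C ↥(H ⊔ Subgroup.zpowers u)) :
    C (MT ↥H (cjAut u H hu)) := by
  obtain ⟨Ψ, h1, h2⟩ := mt_lift (cjAut u H hu) H.subtype u (fun _ => rfl)
  have hinj : Function.Injective Ψ := by
    refine mt_inj _ Ψ _ _ h1 h2 ?_
    intro x n hxn
    have h3 : u ^ n ∈ H := by
      have h4 : u ^ n = ((x : ↥H) : G)⁻¹ := eq_inv_of_mul_eq_one_right hxn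
      rw [h4]
      exact inv_mem x.2
    have h5 := hn n h3
    subst h5
    rw [zpow_zero, mul_one] at hxn
    exact ⟨Subtype.ext hxn, rfl⟩
  have hmem : ∀ z, Ψ z ∈ H ⊔ Subgroup.zpowers u := by
    intro z
    have h3 : z = SemidirectProduct.inl z.left *
        (st (cjAut u H hu)) ^ (Multiplicative.toAdd z.right) := by
      rw [st_zpow]
      exact (SemidirectProduct.inl_left_mul_inr_right z).symm
    rw [h3, map_mul, map_zpow, h1, h2]
    exact mul_mem (Subgroup.mem_sup_left z.left.2)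
      (Subgroup.mem_sup_right (Subgroup.mem_zpowers_iff.2 ⟨_, rfl⟩))
  refine hC.of_injective _ _ (Ψ.codRestrict _ hmem) ?_ h
  intro x y hxy
  exact hinj (congrArg Subtype.val hxy)

/-- **The mapping tori.** -/
theorem sup_mem_inf (hC : ClosedE C) {Λ : SimpleGraph V} (F : GrP Λ (fun v => ↥(A v)) →* G)
    (hF : ∀ v a, F (GrP.of Λ (fun v => ↥(A v)) v a) = a) (hFi : Function.Injective F)
    (hFr : F.range = N) (hN : N.Normal)
    (hn : ∀ v (h : G), cj h (A v) = A v → C ↥(A v ⊔ Subgroup.zpowers h)) (g : G)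
    (s : Λ ≃g Λ) (hs : ∀ v, A (s v) = cj g (A v))
    (hg : ∀ n : ℕ, 0 < n → g ^ n ∉ N) : C ↥(N ⊔ Subgroup.zpowers g) := by
  have hAN : ∀ v, A v ≤ N := by
    intro v x hx
    rw [← hFr]
    exact ⟨GrP.of Λ (fun v => ↥(A v)) v ⟨x, hx⟩, hF v ⟨x, hx⟩⟩
  let T : Type := GrP Λ (fun v => ↥(A v))
  let e : T ≃* ↥N := (MonoidHom.ofInjective hFi).trans (MulEquiv.subgroupCongr hFr)
  have he : ∀ x : T, ((e x : ↥N) : G) = F x := fun x => rfl
  let σ : MulAut T := (e.trans (MulAut.conjNormal g)).trans e.symm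
  have hσ : ∀ x : T, F (σ x) = g * F x * g⁻¹ := by
    intro x
    rw [← he, ← he]
    show ((e (e.symm (MulAut.conjNormal g (e x))) : ↥N) : G) = _
    rw [MulEquiv.apply_symm_apply, MulAut.conjNormal_apply]
  have hσ' : ∀ x : T, F (σ⁻¹ x) = g⁻¹ * F x * g := by
    intro x
    have h1 := hσ (σ⁻¹ x)
    rw [MulAut.apply_inv_self] at h1
    rw [h1]; group
  let s1 : Equiv.Perm V := s.toEquiv
  have hs1 : ∀ v, A (s1 v) = cj g (A v) := hs
  have hs' : ∀ v, A (s1⁻¹ v) = cj g⁻¹ (A v) := by
    intro v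
    have h1 := hs1 (s1⁻¹ v)
    rw [← Equiv.Perm.mul_apply, mul_inv_cancel, Equiv.Perm.one_apply] at h1
    rw [h1, cj_cj, inv_mul_cancel, cj_one]
  let D : Dat Λ (fun v => ↥(A v)) :=
    { σ := σ
      s := s1
      hσ := fun v a => by
        refine ⟨⟨g * a * g⁻¹, ?_⟩, ?_⟩
        · rw [hs1]; exact conj_mem_cj a.2
        · apply hFi
          rw [hσ, hF, hF]
      hσ' := fun v a => by
        refine ⟨⟨g⁻¹ * a * g, ?_⟩, ?_⟩
        · rw [hs']
          have := conj_mem_cj (g := g⁻¹) a.2
          rwa [inv_inv] at this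
        · apply hFi
          rw [hσ', hF, hF]
      hΛ := fun v w => s.map_adj_iff }
  have hAg : ∀ v, C ↥(Dat.Ag Λ (fun v => ↥(A v)) v) := fun v => by
    refine range_mem hC.base (GrP.of Λ (fun v => ↥(A v)) v) (of_inj v) _ le_rfl ?_
    have h1 := hn v 1 (cj_one _)
    exact hC.base.of_injective _ _ (Subgroup.inclusion le_sup_left)
      (Subgroup.inclusion_injective _) h1
  have hMT : C (MT T σ) := by
    refine D.torus hC hAg ?_
    intro v c hc hcv
    have hcv' : cj (g ^ c) (A v) = A v := by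
      have h1 := pow_perm hs1 c v
      have h2 : (s1 ^ c) v = v := hcv
      rw [h2] at h1
      exact h1.symm
    let φ : MulAut ↥(A v) := cjAut (g ^ c) (A v) hcv'
    have hpow : ∀ x : T, F ((σ ^ c) x) = g ^ c * F x * (g ^ c)⁻¹ := by
      intro x
      have := zp_pow σ F g hσ c x
      rwa [zpow_natCast, zpow_natCast] at this
    have hφ : ∀ a : ↥(A v), (σ ^ c) (GrP.of Λ (fun v => ↥(A v)) v a) =
        GrP.of Λ (fun v => ↥(A v)) v (φ a) := by
      intro a
      apply hFi
      rw [hpow, hF, hF]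
      rfl
    have hin : ∀ x : T, (SemidirectProduct.inl ((σ ^ c) x) : MT T σ) =
        (st σ) ^ c * SemidirectProduct.inl x * ((st σ) ^ c)⁻¹ := by
      intro x
      have := zp_pow σ (SemidirectProduct.inl : T →* MT T σ) (st σ)
        (fun x => (st_conj σ x).symm) c x
      rwa [zpow_natCast, zpow_natCast] at this
    obtain ⟨Ψ, h1, h2⟩ := mt_lift φ ((SemidirectProduct.inl : T →* MT T σ).comp
      (GrP.of Λ (fun v => ↥(A v)) v)) ((st σ) ^ c) (fun a => by
        show SemidirectProduct.inl _ = _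
        rw [← hφ, hin]; rfl)
    have hinj : Function.Injective Ψ := by
      refine mt_inj φ Ψ _ _ h1 h2 ?_
      intro x n hxn
      rw [← zpow_natCast, ← zpow_mul] at hxn
      obtain ⟨h3, h4⟩ := inl_mul_st σ _ _ hxn
      refine ⟨of_inj (Λ := Λ) (A := fun v => ↥(A v)) v
        (h3.trans (map_one _).symm), ?_⟩
      rcases mul_eq_zero.1 h4 with h5 | h5
      · omega
      · exact h5
    refine range_mem hC.base Ψ hinj _ ?_ (mt_of_sup hC.base (A v) (g ^ c) hcv' ?_
      (hn v (g ^ c) hcv'))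
    · rw [Subgroup.closure_le]
      rintro x (⟨_, ⟨a, rfl⟩, rfl⟩ | hx)
      · exact ⟨SemidirectProduct.inl a, h1 a⟩
      · rw [Set.mem_singleton_iff.1 hx]
        exact ⟨st φ, h2⟩
    · intro n hn'
      rw [← zpow_natCast, ← zpow_mul] at hn'
      have h3 := zpow_not_mem hg (hAN v hn')
      rcases mul_eq_zero.1 h3 with h5 | h5
      · omega
      · exact h5
  obtain ⟨Ψ, h1, h2⟩ := mt_lift σ F g hσ
  have hinj : Function.Injective Ψ := by
    refine mt_inj σ Ψ F g h1 h2 ?_
    intro x n hxn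
    have h3 : g ^ n ∈ N := by
      have h4 : g ^ n = (F x)⁻¹ := (eq_inv_of_mul_eq_one_right hxn)
      rw [h4]
      refine inv_mem ?_
      rw [← hFr]
      exact ⟨x, rfl⟩
    have h5 : n = 0 := zpow_not_mem hg h3
    subst h5
    rw [zpow_zero, mul_one] at hxn
    exact ⟨hFi (hxn.trans (map_one F).symm), rfl⟩
  refine range_mem hC.base Ψ hinj _ ?_ hMT
  refine sup_le ?_ ?_
  · intro x hx
    rw [← hFr] at hx
    obtain ⟨y, rfl⟩ := hx
    exact ⟨SemidirectProduct.inl y, h1 y⟩
  · rw [Subgroup.zpowers_le]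
    exact ⟨st σ, h2⟩

end

/-- overgroups with a cyclic quotient of finite order -/
theorem sup_mem_fin (hC : Closed C) {G : Type} [Group G] (N : Subgroup G) [N.Normal] (g : G)
    (n : ℕ) (hn : 0 < n) (hg : g ^ n ∈ N) (hN : C ↥N) : C ↥(N ⊔ Subgroup.zpowers g) := by
  let N' := N.subgroupOf (N ⊔ Subgroup.zpowers g)
  have hcyc : ∀ x : ↥(N ⊔ Subgroup.zpowers g) ⧸ N', x ∈ Subgroup.zpowers
      (QuotientGroup.mk ⟨g, Subgroup.mem_sup_right (Subgroup.mem_zpowers g)⟩ :
        ↥(N ⊔ Subgroup.zpowers g) ⧸ N') := by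
    intro x
    obtain ⟨⟨y, hy⟩, rfl⟩ := QuotientGroup.mk_surjective x
    obtain ⟨a, ha, z, hz, rfl⟩ := Subgroup.mem_sup_of_normal_left.1 hy
    obtain ⟨k, rfl⟩ := Subgroup.mem_zpowers_iff.1 hz
    rw [Subgroup.mem_zpowers_iff]
    refine ⟨k, ?_⟩
    rw [← QuotientGroup.mk_zpow, eq_comm, QuotientGroup.eq]
    show _ ∈ N.subgroupOf _
    rw [Subgroup.mem_subgroupOf]
    show (a * g ^ k)⁻¹ * g ^ k ∈ N
    have h1 : (a * g ^ k)⁻¹ * g ^ k = (g ^ k)⁻¹ * a⁻¹ * ((g ^ k)⁻¹)⁻¹ := by group
    rw [h1]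
    exact ‹N.Normal›.conj_mem _ (inv_mem ha) _
  have hfin : Finite (↥(N ⊔ Subgroup.zpowers g) ⧸ N') := by
    have h1 : IsOfFinOrder (QuotientGroup.mk ⟨g, Subgroup.mem_sup_right (Subgroup.mem_zpowers g)⟩ :
        ↥(N ⊔ Subgroup.zpowers g) ⧸ N') := by
      rw [isOfFinOrder_iff_pow_eq_one]
      refine ⟨n, hn, ?_⟩
      rw [← QuotientGroup.mk_pow, QuotientGroup.eq_one_iff]
      exact hg
    have h2 := finite_zpowers.2 h1
    have h3 : (Set.univ : Set (↥(N ⊔ Subgroup.zpowers g) ⧸ N')).Finite :=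
      h2.subset fun x _ => hcyc x
    exact Set.finite_univ_iff.1 h3
  have hfi : N'.FiniteIndex := Subgroup.finiteIndex_of_finite_quotient
  refine hC.finiteIndex _ N' hfi ?_
  exact hC.of_injective _ _ (Subgroup.subgroupOfEquivOfLe
    (show N ≤ N ⊔ Subgroup.zpowers g from le_sup_left)).toMonoidHom
    (Subgroup.subgroupOfEquivOfLe (show N ≤ N ⊔ Subgroup.zpowers g from le_sup_left)).injective hN

/-- `N` is the internal graph product over the graph `Λ` of the subgroups `A v` of `G`: the
homomorphism to `G` from the graph product of the `A v` which extends the inclusions is injective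
with range `N`. -/
def IsGraphProduct {G V : Type} [Group G] (Λ : SimpleGraph V) (A : V → Subgroup G)
    (N : Subgroup G) : Prop :=
  ∃ F : GPr Λ (fun v => ↥(A v)) →* G,
    (∀ v (a : ↥(A v)), F (GPr.of Λ (fun v => ↥(A v)) v a) = a) ∧ Function.Injective F ∧
      F.range = N

/-- `N` is the graph product over `Λ` of the `A v`; for each `g` in `G` some element of the coset
`g N` permutes the `A v` by an automorphism of the graph `Λ`; and `⟨A v, h⟩` is in `C` for all `h`
in the normalizer of `A v`. -/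
structure Kernel (C : ∀ (G : Type) [Group G], Prop) {G V : Type} [Group G] (Λ : SimpleGraph V)
    (A : V → Subgroup G) (N : Subgroup G) : Prop where
  product : IsGraphProduct Λ A N
  permutes : ∀ g : G, ∃ n ∈ N, ∃ s : Λ ≃g Λ, ∀ v, A (s v) = cj (g * n) (A v)
  norm : ∀ v (h : G), cj h (A v) = A v → C ↥(A v ⊔ Subgroup.zpowers h)

section

variable {G V : Type} [Group G] {Λ : SimpleGraph V} {A : V → Subgroup G} {N : Subgroup G}

theorem norm_mem (hC : Closed C) {H : Subgroup G}
    (h : ∀ (h : G), cj h H = H → C ↥(H ⊔ Subgroup.zpowers h)) : C ↥H :=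
  hC.of_injective _ _ (Subgroup.inclusion le_sup_left) (Subgroup.inclusion_injective _)
    (h 1 (cj_one _))

theorem Kernel.memN (hC : ClosedE C) (h : Kernel C Λ A N) : C ↥N := by
  obtain ⟨F, hF, hFi, hr⟩ := h.product
  exact range_mem (M := GrP Λ (fun v => ↥(A v))) hC.base F hFi N hr.ge
    (grp_mem hC (fun v => norm_mem hC.base (h.norm v)))

theorem Kernel.sup_mem (hC : ClosedE C) (h : Kernel C Λ A N) (hN : N.Normal) (g : G) :
    C ↥(N ⊔ Subgroup.zpowers g) := by
  obtain ⟨n, hn, s, hs⟩ := h.permutes g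
  have e1 : N ⊔ Subgroup.zpowers g = N ⊔ Subgroup.zpowers (g * n) := by
    apply le_antisymm
    · refine sup_le le_sup_left ?_
      rw [Subgroup.zpowers_le]
      have h1 : g = (g * n) * n⁻¹ := by group
      have h2 : (g * n) * n⁻¹ ∈ N ⊔ Subgroup.zpowers (g * n) :=
        mul_mem (Subgroup.mem_sup_right (Subgroup.mem_zpowers _))
          (Subgroup.mem_sup_left (inv_mem hn))
      rwa [← h1] at h2
    · refine sup_le le_sup_left ?_
      rw [Subgroup.zpowers_le]
      exact mul_mem (Subgroup.mem_sup_right (Subgroup.mem_zpowers _)) (Subgroup.mem_sup_left hn)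
  refine of_eq e1.symm ?_
  by_cases hg : ∀ m : ℕ, 0 < m → (g * n) ^ m ∉ N
  · obtain ⟨F, hF, hFi, hr⟩ := h.product
    exact sup_mem_inf hC F hF hFi hr hN h.norm (g * n) s hs hg
  · push Not at hg
    obtain ⟨m, hm, hgm⟩ := hg
    exact sup_mem_fin hC.base N _ m hm hgm (h.memN hC)

/-- **Extensions.** -/
theorem Kernel.mem (hC : ClosedE C) (h : Kernel C Λ A N) [hN : N.Normal] (hQ : C (G ⧸ N)) :
    C G :=
  Pool.Agent.Y529.FJ.t_ext C hC G N (h.memN hC) hQ (fun g _ => h.sup_mem hC hN g)

/-- restricted direct products of centreless indecomposable groups -/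
theorem IsDirect.kernel (h : IsDirect A N) (hN : N.Normal) (hc : ∀ v, Centreless ↥(A v))
    (hi : ∀ v, Indecomposable ↥(A v))
    (hn : ∀ v (h : G), cj h (A v) = A v → C ↥(A v ⊔ Subgroup.zpowers h)) :
    Kernel C (⊤ : SimpleGraph V) A N := by
  refine ⟨?_, fun g => ?_, hn⟩
  · obtain ⟨F, hF, hFi, hr⟩ := h.exists_F
    exact ⟨F, hF, hFi, hr⟩
  · obtain ⟨s, hs⟩ := h.exists_perm hN hc hi g
    refine ⟨1, one_mem _, ⟨s, ?_⟩, fun v => ?_⟩
    · intro a b
      simp
    · rw [mul_one]
      exact hs v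

/-- the condition on the normalizer holds if all semidirect products with `ℤ` are in `C` -/
theorem norm_of_absorbs (hC : Closed C) (H : Subgroup G) (ha : Absorbs C ↥H) (u : G)
    (hu : cj u H = H) : C ↥(H ⊔ Subgroup.zpowers u) := by
  -- the subgroup generated by `H` and `u`, in which `H` is normal
  let S : Subgroup G := H ⊔ Subgroup.zpowers u
  have hSn : S ≤ Subgroup.normalizer (H : Set G) := by
    refine sup_le Subgroup.le_normalizer ?_
    rw [Subgroup.zpowers_le, Subgroup.mem_normalizer_iff]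
    intro x
    constructor
    · intro hx
      exact hu.le (conj_mem_cj hx)
    · intro hx
      have h1 : u * x * u⁻¹ ∈ cj u H := by rw [hu]; exact hx
      rw [mem_cj] at h1
      have h2 : u⁻¹ * (u * x * u⁻¹) * u = x := by group
      rwa [h2] at h1
  by_cases hg : ∀ m : ℕ, 0 < m → u ^ m ∉ H
  · obtain ⟨Ψ, h1, h2⟩ := mt_lift (cjAut u H hu) H.subtype u (fun _ => rfl)
    have hinj : Function.Injective Ψ := by
      refine mt_inj _ Ψ _ _ h1 h2 ?_
      intro x n hxn
      have h3 : u ^ n ∈ H := by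
        have h4 : u ^ n = ((x : ↥H) : G)⁻¹ := eq_inv_of_mul_eq_one_right hxn
        rw [h4]
        exact inv_mem x.2
      have h5 := zpow_not_mem hg h3
      subst h5
      rw [zpow_zero, mul_one] at hxn
      exact ⟨Subtype.ext hxn, rfl⟩
    refine range_mem hC Ψ hinj _ ?_ (ha (cjAut u H hu))
    refine sup_le ?_ ?_
    · intro x hx
      exact ⟨SemidirectProduct.inl ⟨x, hx⟩, h1 _⟩
    · rw [Subgroup.zpowers_le]
      exact ⟨st _, h2⟩
  · push Not at hg
    obtain ⟨m, hm, hgm⟩ := hg
    have hHn : (H.subgroupOf S).Normal := Subgroup.normal_subgroupOf_of_le_normalizer hSn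
    let u' : ↥S := ⟨u, Subgroup.mem_sup_right (Subgroup.mem_zpowers u)⟩
    have h1 : C ↥(H.subgroupOf S ⊔ Subgroup.zpowers u') := by
      refine sup_mem_fin hC (H.subgroupOf S) u' m hm hgm ?_
      exact hC.of_injective _ _ (Subgroup.subgroupOfEquivOfLe
        (show H ≤ S from le_sup_left)).toMonoidHom
        (Subgroup.subgroupOfEquivOfLe (show H ≤ S from le_sup_left)).injective
        (absorbs_mem hC ha)
    have h2 : H.subgroupOf S ⊔ Subgroup.zpowers u' = ⊤ := by
      rw [eq_top_iff]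
      rintro ⟨x, hx⟩ _
      have h3 : (H.subgroupOf S ⊔ Subgroup.zpowers u').map S.subtype = S := by
        rw [Subgroup.map_sup, MonoidHom.map_zpowers, Subgroup.subgroupOf_map_subtype,
          inf_of_le_left (show H ≤ S from le_sup_left)]
        rfl
      have h4 : x ∈ (H.subgroupOf S ⊔ Subgroup.zpowers u').map S.subtype := by
        rw [h3]; exact hx
      obtain ⟨y, hy, hyx⟩ := h4
      have h5 : y = ⟨x, hx⟩ := Subtype.ext hyx
      rw [← h5]
      exact hy
    exact hC.of_injective _ _ (Subgroup.topEquiv (G := ↥S)).symm.toMonoidHom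
      (Subgroup.topEquiv (G := ↥S)).symm.injective (of_eq h2 h1)

end

/-- torsion outer automorphism groups -/
theorem absorbs_of_torsion (hC : Closed C) (M : Type) [Group M] (hM : C M)
    (h : ∀ φ : MulAut M, ∃ n : ℕ, 0 < n ∧ ∃ m : M, φ ^ n = MulAut.conj m) : Absorbs C M := by
  intro φ
  obtain ⟨n, hn, m, hm⟩ := h φ
  refine mt_pow φ hC n hn ?_
  rw [hm]
  obtain ⟨Ψ, h1, h2⟩ := mt_lift (MulAut.conj m) (MonoidHom.inl M (Multiplicative ℤ))
    (m, Multiplicative.ofAdd (1 : ℤ)) (fun x => by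
      apply Prod.ext
      · show m * x * m⁻¹ = m * x * m⁻¹
        rfl
      · show (1 : Multiplicative ℤ) = Multiplicative.ofAdd 1 * 1 * (Multiplicative.ofAdd 1)⁻¹
        simp)
  refine hC.of_injective _ _ Ψ (mt_inj _ Ψ _ _ h1 h2 ?_) (hC.prod _ _ hM hC.int)
  intro x k hxk
  have h4 : x * m ^ k = 1 := congrArg Prod.fst hxk
  have h5 : (1 : Multiplicative ℤ) * (Multiplicative.ofAdd (1 : ℤ)) ^ k = 1 :=
    congrArg Prod.snd hxk
  rw [one_mul, ← ofAdd_zsmul, smul_eq_mul, mul_one] at h5
  have h6 : k = 0 := h5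
  subst h6
  rw [zpow_zero, mul_one] at h4
  exact ⟨h4, rfl⟩

/-- Every proper normal subgroup `K` of `G` is contained in a larger normal subgroup `L` such that
`L / K` is solvable or locally finite or the kernel of a family of subgroups of `G / K` (`Kernel`).
-/
def Hyp' (C : ∀ (G : Type) [Group G], Prop) (G : Type) [Group G] : Prop :=
  ∀ (K : Subgroup G) [K.Normal], K ≠ ⊤ → ∃ L : Subgroup G, L.Normal ∧ K < L ∧
    (Group.IsSolvable ↥(L.map (QuotientGroup.mk' K)) ∨ LocFin ↥(L.map (QuotientGroup.mk' K)) ∨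
      ∃ (V : Type) (Λ : SimpleGraph V) (A : V → Subgroup (G ⧸ K)),
        Kernel C Λ A (L.map (QuotientGroup.mk' K)))

theorem hyp'_mem (hC : ClosedE C) (hS : ∀ (G : Type) [Group G], Group.IsSolvable G → C G)
    (G : Type) [Group G] (h : Hyp' C G) : C G := by
  refine hyper hC G (fun K _ hK => ?_)
  obtain ⟨L, hL, hKL, hLK⟩ := h K hK
  refine ⟨L, hL, hKL, fun g => ?_⟩
  have h1 : (L ⊔ Subgroup.zpowers g).map (QuotientGroup.mk' K) =
      L.map (QuotientGroup.mk' K) ⊔ Subgroup.zpowers (QuotientGroup.mk' K g) := by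
    rw [Subgroup.map_sup, MonoidHom.map_zpowers]
  have hn : (L.map (QuotientGroup.mk' K)).Normal :=
    Subgroup.Normal.map hL _ (QuotientGroup.mk'_surjective K)
  refine of_eq h1.symm ?_
  rcases hLK with h2 | h2 | ⟨V, Λ, A, h2⟩
  · exact hS _ (solv_sup _ _ h2)
  · exact lf_sup hC _ _ h2
  · exact h2.sup_mem hC hn _

theorem locally_hyp'_mem (hC : ClosedE C)
    (hS : ∀ (G : Type) [Group G], Group.IsSolvable G → C G) (G : Type) [Group G]
    (h : ∀ s : Finset G, Hyp' C ↥(Subgroup.closure (s : Set G))) : C G :=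
  of_fg hC.base G (fun s => hyp'_mem hC hS _ (h s))

end Pool.Agent.H63N.FJ
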