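import Pool.Agent.H63N.FJ.Tri

/-!
# Groups of finitary unitriangular matrices over a partially ordered set
-/

set_option autoImplicit false

namespace Pool.Agent.H63N.FJ

open Pool.Agent.Y110.FJ
open Pool.Agent.Y462.SS (Closed)
open Pool.Agent.H65FJ
open Pos

section

variable {Λ A : Type} [Ring A]

/-- a support function on a ring -/
structure Sp (A Λ : Type) [Ring A] where
  supp : A → Set (Λ × Λ)
  zero : supp 0 ⊆ ∅
  add : ∀ a b, supp (a + b) ⊆ supp a ∪ supp b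
  neg : ∀ a, supp (-a) ⊆ supp a
  mul : ∀ a b, supp (a * b) ⊆ cmp (supp a) (supp b)
  eq_zero : ∀ a, supp a ⊆ ∅ → a = 0

theorem Sp.sub (σ : Sp A Λ) (a b : A) : σ.supp (a - b) ⊆ σ.supp a ∪ σ.supp b := by
  rw [sub_eq_add_neg]
  exact (σ.add a (-b)).trans (Set.union_subset_union_right _ (σ.neg b))

variable (σ : Sp A Λ)

variable [PartialOrder Λ]

theorem cmp_sub {D : Set (Λ × Λ)} (hD : Tr D) {A B : Set (Λ × Λ)} (hA : A ⊆ D) (hB : B ⊆ D) :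
    cmp A B ⊆ D := by
  rintro ⟨x, z⟩ ⟨y, h1, h2⟩
  exact hD.trans _ _ _ (hA h1) (hB h2)

omit [PartialOrder Λ] in
theorem cmp_mono {A B A' B' : Set (Λ × Λ)} (hA : A ⊆ A') (hB : B ⊆ B') :
    cmp A B ⊆ cmp A' B' := by
  rintro ⟨x, z⟩ ⟨y, h1, h2⟩
  exact ⟨y, hA h1, hB h2⟩

/-- finitary and upper unitriangular -/
def Unitri (u : Aˣ) : Prop :=
  (σ.supp ((u : A) - 1)).Finite ∧
    ∀ p ∈ σ.supp ((u : A) - 1), p.1 < p.2

theorem supp_mul_sub {D : Set (Λ × Λ)} (hD : Tr D) {u v : A}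
    (hu : σ.supp (u - 1) ⊆ D) (hv : σ.supp (v - 1) ⊆ D) : σ.supp (u * v - 1) ⊆ D := by
  have h1 : u * v - 1 = (u - 1) * (v - 1) + ((u - 1) + (v - 1)) := by noncomm_ring
  rw [h1]
  refine (σ.add _ _).trans (Set.union_subset ((σ.mul _ _).trans (cmp_sub hD hu hv)) ?_)
  exact (σ.add _ _).trans (Set.union_subset hu hv)

theorem supp_inv_sub {D : Set (Λ × Λ)} (hD : Tr D) {u : Aˣ}
    (hu : σ.supp ((u : A) - 1) ⊆ D) (hi : Unitri σ u⁻¹) :
    σ.supp (((u⁻¹ : Aˣ) : A) - 1) ⊆ D := by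
  classical
  set a : A := (u : A) - 1 with ha
  set b : A :=
    ((u⁻¹ : Aˣ) : A) - 1 with hb
  have h1 : b = -a - a * b := by
    have h2 : (u : A) *
      ((u⁻¹ : Aˣ) : A) = 1 := Units.mul_inv u
    have h3 : (a + 1) * (b + 1) = 1 := by rw [ha, hb, sub_add_cancel, sub_add_cancel]; exact h2
    have h4 : (a + 1) * (b + 1) = a * b + a + b + 1 := by noncomm_ring
    rw [h4] at h3
    have h5 : a * b + a + b = 0 := by
      have h7 : a * b + a + b + 1 = 0 + 1 := by rw [h3, zero_add]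
      exact add_right_cancel h7
    have h6 : b = -(a * b + a) := eq_neg_of_add_eq_zero_right h5
    calc b = -(a * b + a) := h6
      _ = -a - a * b := by rw [neg_add, add_comm, sub_eq_add_neg]
  have key : ∀ n : ℕ, ∀ x z, (x, z) ∈ σ.supp b → (σ.supp b ∩ {p | x < p.1}).ncard < n →
      (x, z) ∈ D := by
    intro n
    induction n with
    | zero => intro x z _ h; exact absurd h (Nat.not_lt_zero _)
    | succ n ih =>
      intro x z hxz hn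
      rw [h1] at hxz
      rcases σ.sub _ _ hxz with h2 | h2
      · exact hu (σ.neg _ h2)
      · obtain ⟨y, h3, h4⟩ := σ.mul _ _ h2
        have hxy : x < y := hD.lt _ _ (hu h3)
        refine hD.trans _ _ _ (hu h3) (ih y z h4 ?_)
        have h5 : σ.supp b ∩ {p | y < p.1} ⊂ σ.supp b ∩ {p | x < p.1} := by
          refine (Set.ssubset_iff_of_subset ?_).2 ⟨(y, z), ⟨h4, hxy⟩, ?_⟩
          · rintro p ⟨h5, h6⟩
            exact ⟨h5, hxy.trans h6⟩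
          · rintro ⟨_, h6⟩
            exact lt_irrefl _ h6
        have h6 := Set.ncard_lt_ncard h5 (hi.1.subset Set.inter_subset_left)
        omega
  rintro ⟨x, z⟩ hxz
  exact key _ x z hxz (Nat.lt_succ_self _)

variable {G : Type} [Group G] {N : Subgroup G}

/-- the elements of `N` with support in `D` -/
def HS (θ : ↥N →* Aˣ) (D : Set (Λ × Λ)) : Set G :=
  {g | ∃ h : g ∈ N, σ.supp ((θ ⟨g, h⟩ : A) - 1) ⊆ D}

def HD (θ : ↥N →* Aˣ) (D : Set (Λ × Λ)) : Subgroup G :=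
  Subgroup.closure (HS σ θ D)

theorem mem_HD {θ : ↥N →* Aˣ} (hu : ∀ n, Unitri σ (θ n)) {D : Set (Λ × Λ)}
    (hD : Tr D) (g : G) : g ∈ HD σ θ D ↔
      ∃ h : g ∈ N, σ.supp ((θ ⟨g, h⟩ : A) - 1) ⊆ D := by
  let K : Subgroup G :=
    { carrier := HS σ θ D
      one_mem' := by
        refine ⟨one_mem _, ?_⟩
        have h1 : θ ⟨1, one_mem N⟩ = 1 := map_one θ
        rw [h1, Units.val_one, sub_self]
        exact σ.zero.trans (Set.empty_subset _)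
      mul_mem' := by
        rintro a b ⟨ha, ha'⟩ ⟨hb, hb'⟩
        refine ⟨mul_mem ha hb, ?_⟩
        have h1 : θ ⟨a * b, mul_mem ha hb⟩ = θ ⟨a, ha⟩ * θ ⟨b, hb⟩ := map_mul θ ⟨a, ha⟩ ⟨b, hb⟩
        rw [h1, Units.val_mul]
        exact supp_mul_sub σ hD ha' hb'
      inv_mem' := by
        rintro a ⟨ha, ha'⟩
        refine ⟨inv_mem ha, ?_⟩
        have h1 : θ ⟨a⁻¹, inv_mem ha⟩ = (θ ⟨a, ha⟩)⁻¹ := map_inv θ ⟨a, ha⟩
        rw [h1]
        exact supp_inv_sub σ hD ha' (by rw [← h1]; exact hu _) }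
  have h1 : HD σ θ D = K := Subgroup.closure_eq K
  rw [h1]
  rfl

theorem tri (θ : ↥N →* Aˣ) (hθ : Function.Injective θ)
    (hu : ∀ n, Unitri σ (θ n)) : Tri N (HD σ θ) := by
  classical
  refine ⟨?_, ?_, ?_, ?_, ?_, ?_, ?_⟩
  · intro D hD x hx
    obtain ⟨h, -⟩ := (mem_HD σ hu hD x).1 hx
    exact h
  · intro D D' hD hD' hDD x hx
    obtain ⟨h, h1⟩ := (mem_HD σ hu hD x).1 hx
    exact (mem_HD σ hu hD' x).2 ⟨h, h1.trans hDD⟩
  · intro D D' hD hD' x hx hx'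
    obtain ⟨h, h1⟩ := (mem_HD σ hu hD x).1 hx
    obtain ⟨h', h1'⟩ := (mem_HD σ hu hD' x).1 hx'
    exact (mem_HD σ hu (tr_inter hD hD') x).2 ⟨h, Set.subset_inter h1 h1'⟩
  · intro x hx
    have h0 : Tr (∅ : Set (Λ × Λ)) := ⟨fun _ _ h => absurd h (Set.notMem_empty _),
      fun _ _ _ h => absurd h (Set.notMem_empty _)⟩
    obtain ⟨h, h1⟩ := (mem_HD σ hu h0 x).1 hx
    have h2 := σ.eq_zero _ h1
    have h3 : θ ⟨x, h⟩ = 1 := Units.ext (sub_eq_zero.1 h2)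
    have h4 := hθ (h3.trans (map_one θ).symm)
    exact Subgroup.mem_bot.2 (congrArg Subtype.val h4)
  · intro D hD a ha b hb
    have hDD : Idl D (cmp D D) := (Idl.refl hD).cmp hD
    obtain ⟨ha1, ha2⟩ := (mem_HD σ hu hD a).1 ha
    obtain ⟨hb1, hb2⟩ := (mem_HD σ hu hD b).1 hb
    refine (mem_HD σ hu (hDD.tr hD) _).2
      ⟨mul_mem (mul_mem (mul_mem ha1 hb1) (inv_mem ha1)) (inv_mem hb1), ?_⟩
    obtain ⟨hc1, hc2⟩ := (mem_HD σ hu hD ((b * a)⁻¹)).1 (inv_mem (mul_mem hb ha))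
    set u := θ ⟨a, ha1⟩ with hu'
    set v := θ ⟨b, hb1⟩ with hv'
    have e1 : θ ⟨a * b * a⁻¹ * b⁻¹, mul_mem (mul_mem (mul_mem ha1 hb1) (inv_mem ha1))
        (inv_mem hb1)⟩ = u * v * (v * u)⁻¹ := by
      have h1 : (⟨a * b * a⁻¹ * b⁻¹, mul_mem (mul_mem (mul_mem ha1 hb1) (inv_mem ha1))
        (inv_mem hb1)⟩ : ↥N) = ⟨a, ha1⟩ * ⟨b, hb1⟩ * ⟨a, ha1⟩⁻¹ * ⟨b, hb1⟩⁻¹ := rfl
      rw [h1, map_mul, map_mul, map_mul, map_inv, map_inv, mul_inv_rev]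
      simp only [← hu', ← hv']
      group
    have e2 : θ ⟨(b * a)⁻¹, hc1⟩ = (v * u)⁻¹ := by
      have h1 : (⟨(b * a)⁻¹, hc1⟩ : ↥N) = (⟨b, hb1⟩ * ⟨a, ha1⟩)⁻¹ := rfl
      rw [h1, map_inv, map_mul]
    rw [e2] at hc2
    rw [e1]
    set w : A := (((v * u)⁻¹ : Aˣ) : A) with hw
    have e3 : (v : A) * u * w = 1 := by
      rw [hw, ← Units.val_mul, ← Units.val_mul, mul_inv_cancel, Units.val_one]
    have e4 : ((u * v * (v * u)⁻¹ : Aˣ) : A) - 1 =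
        (((u : A) - 1) * (v - 1) - (v - 1) * (u - 1)) +
          (((u : A) - 1) * (v - 1) - (v - 1) * (u - 1)) * (w - 1) := by
      rw [Units.val_mul, Units.val_mul, ← hw]
      have e5 : ((u : A) * v * w - 1) =
        ((u : A) * v * w - v * u * w) := by rw [e3]
      rw [e5]
      noncomm_ring
    rw [e4]
    have h5 : σ.supp (((u : A) - 1) * (v - 1) - (v - 1) * (u - 1)) ⊆ cmp D D :=
      (σ.sub _ _).trans (Set.union_subset ((σ.mul _ _).trans (cmp_mono ha2 hb2))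
        ((σ.mul _ _).trans (cmp_mono hb2 ha2)))
    refine (σ.add _ _).trans (Set.union_subset h5 ((σ.mul _ _).trans ?_))
    rintro ⟨x, z⟩ ⟨y, h6, h7⟩
    exact hDD.right _ _ _ (h5 h6) (hc2 h7)
  · intro D I hD hI a ha b hb
    obtain ⟨ha1, ha2⟩ := (mem_HD σ hu hD a).1 ha
    obtain ⟨hc1, hc2⟩ := (mem_HD σ hu hD a⁻¹).1 (inv_mem ha)
    obtain ⟨hb1, hb2⟩ := (mem_HD σ hu (hI.tr hD) b).1 hb
    refine (mem_HD σ hu (hI.tr hD) _).2 ⟨mul_mem (mul_mem ha1 hb1) hc1, ?_⟩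
    set u := θ ⟨a, ha1⟩ with hu'
    set v := θ ⟨b, hb1⟩ with hv'
    have e2 : θ ⟨a⁻¹, hc1⟩ = u⁻¹ := map_inv θ ⟨a, ha1⟩
    have e1 : θ ⟨a * b * a⁻¹, mul_mem (mul_mem ha1 hb1) hc1⟩ = u * v * u⁻¹ := by
      have h1 : (⟨a * b * a⁻¹, mul_mem (mul_mem ha1 hb1) hc1⟩ : ↥N) =
        ⟨a, ha1⟩ * ⟨b, hb1⟩ * ⟨a, ha1⟩⁻¹ := rfl
      rw [h1, map_mul, map_mul, map_inv]
    rw [e2] at hc2
    rw [e1]
    set w : A := ((u⁻¹ : Aˣ) : A) with hw
    have e3 : (u : A) * w = 1 := Units.mul_inv u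
    have e4 : ((u * v * u⁻¹ : Aˣ) : A) - 1 =
        (((v : A) - 1) + ((u : A) - 1) * (v - 1)) +
        (((v : A) - 1) + ((u : A) - 1) * (v - 1)) *
          (w - 1) := by
      rw [Units.val_mul, Units.val_mul, ← hw]
      have e5 : ((u : A) * v * w - 1) =
        ((u : A) * v * w - u * w) := by rw [e3]
      rw [e5]
      noncomm_ring
    rw [e4]
    have h5 : σ.supp (((v : A) - 1) +
        ((u : A) - 1) * (v - 1)) ⊆ I := by
      refine (σ.add _ _).trans (Set.union_subset hb2 ((σ.mul _ _).trans ?_))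
      rintro ⟨x, z⟩ ⟨y, h6, h7⟩
      exact hI.left _ _ _ (ha2 h6) (hb2 h7)
    refine (σ.add _ _).trans (Set.union_subset h5 ((σ.mul _ _).trans ?_))
    rintro ⟨x, z⟩ ⟨y, h6, h7⟩
    exact hI.right _ _ _ (h5 h6) (hc2 h7)
  · intro n hn
    have hfin := (hu ⟨n, hn⟩).1
    refine ⟨(hfin.image Prod.fst).toFinset ∪ (hfin.image Prod.snd).toFinset,
      (mem_HD σ hu (tr_pairs _) n).2 ⟨hn, ?_⟩⟩
    rintro ⟨x, y⟩ hxy
    refine ⟨?_, ?_, (hu ⟨n, hn⟩).2 _ hxy⟩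
    · rw [Finset.mem_coe, Finset.mem_union, Set.Finite.mem_toFinset]
      exact Or.inl ⟨_, hxy, rfl⟩
    · rw [Finset.mem_coe, Finset.mem_union, Set.Finite.mem_toFinset, Set.Finite.mem_toFinset]
      exact Or.inr ⟨_, hxy, rfl⟩

/-- **Kernels which are groups of finitary unitriangular matrices.** -/
theorem unitri_mem {C : ∀ (G : Type) [Group G], Prop} (hC : ClosedE C)
    (hS : ∀ (G : Type) [Group G], Group.IsSolvable G → C G) [hN : N.Normal]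
    (θ : ↥N →* Aˣ) (hθ : Function.Injective θ) (hu : ∀ n, Unitri σ (θ n))
    (hg : ∀ g : G, ∃ n ∈ N, ∃ s : Λ ≃o Λ, ∀ m m' : ↥N, (m' : G) = n * g * m * (n * g)⁻¹ →
      ∀ x y, (s x, s y) ∈ σ.supp ((θ m' : A) - 1) ↔
        (x, y) ∈ σ.supp ((θ m : A) - 1)) (hQ : C (G ⧸ N)) : C G := by
  refine (tri σ θ hθ hu).mem hC hS (fun g => ?_) hQ
  obtain ⟨n, hn, s, h1⟩ := hg g
  refine ⟨n, hn, s, fun D hD hDs x => ?_⟩
  rw [mem_HD σ hu hD, mem_HD σ hu hD]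
  constructor
  · rintro ⟨h2, h3⟩
    refine ⟨hN.conj_mem _ h2 _, ?_⟩
    rintro ⟨p, q⟩ hpq
    have h4 := h1 ⟨x, h2⟩ ⟨_, hN.conj_mem _ h2 (n * g)⟩ rfl (s.symm p) (s.symm q)
    rw [OrderIso.apply_symm_apply, OrderIso.apply_symm_apply] at h4
    have h5 := h3 (h4.1 hpq)
    rw [← hDs, OrderIso.apply_symm_apply, OrderIso.apply_symm_apply] at h5
    exact h5
  · rintro ⟨h2, h3⟩
    have h2' : x ∈ N := by
      have h4 := hN.conj_mem _ h2 (n * g)⁻¹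
      have h5 : (n * g)⁻¹ * (n * g * x * (n * g)⁻¹) * (n * g)⁻¹⁻¹ = x := by group
      rwa [h5] at h4
    refine ⟨h2', ?_⟩
    rintro ⟨p, q⟩ hpq
    rw [← hDs]
    exact h3 ((h1 ⟨x, h2'⟩ ⟨_, h2⟩ rfl p q).2 hpq)

end

end Pool.Agent.H63N.FJ
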