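import Mathlib

/-!
# Transitive relations on partially ordered sets with an automorphism
-/

set_option autoImplicit false

namespace Pool.Agent.H63N.FJ.Pos

variable {Λ : Type} [PartialOrder Λ]

/-- transitive sets of pairs `x < y` -/
structure Tr (D : Set (Λ × Λ)) : Prop where
  lt : ∀ x y, (x, y) ∈ D → x < y
  trans : ∀ x y z, (x, y) ∈ D → (y, z) ∈ D → (x, z) ∈ D

/-- ideals -/
structure Idl (D I : Set (Λ × Λ)) : Prop where
  sub : I ⊆ D
  left : ∀ x y z, (x, y) ∈ D → (y, z) ∈ I → (x, z) ∈ I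
  right : ∀ x y z, (x, y) ∈ I → (y, z) ∈ D → (x, z) ∈ I

/-- composition -/
def cmp (D D' : Set (Λ × Λ)) : Set (Λ × Λ) := {p | ∃ y, (p.1, y) ∈ D ∧ (y, p.2) ∈ D'}

/-- iterated composition with itself -/
def pw (D : Set (Λ × Λ)) : ℕ → Set (Λ × Λ)
  | 0 => D
  | k + 1 => cmp (pw D k) (pw D k)

theorem Idl.tr {D I : Set (Λ × Λ)} (hD : Tr D) (h : Idl D I) : Tr I :=
  ⟨fun x y hxy => hD.lt x y (h.sub hxy), fun x y z h1 h2 => h.left x y z (h.sub h1) h2⟩

theorem Idl.refl {D : Set (Λ × Λ)} (hD : Tr D) : Idl D D :=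
  ⟨le_rfl, hD.trans, hD.trans⟩

theorem Idl.cmp {D I : Set (Λ × Λ)} (hD : Tr D) (h : Idl D I) : Idl D (cmp I I) := by
  refine ⟨?_, ?_, ?_⟩
  · rintro ⟨x, z⟩ ⟨y, h1, h2⟩
    exact hD.trans x y z (h.sub h1) (h.sub h2)
  · rintro x y z h1 ⟨w, h2, h3⟩
    exact ⟨w, h.left _ _ _ h1 h2, h3⟩
  · rintro x y z ⟨w, h2, h3⟩ h1
    exact ⟨w, h2, h.right _ _ _ h3 h1⟩

omit [PartialOrder Λ] in
theorem Idl.union {D I J : Set (Λ × Λ)} (h : Idl D I) (h' : Idl D J) : Idl D (I ∪ J) := by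
  refine ⟨Set.union_subset h.sub h'.sub, ?_, ?_⟩
  · rintro x y z h1 (h2 | h2)
    · exact Or.inl (h.left _ _ _ h1 h2)
    · exact Or.inr (h'.left _ _ _ h1 h2)
  · rintro x y z (h2 | h2) h1
    · exact Or.inl (h.right _ _ _ h2 h1)
    · exact Or.inr (h'.right _ _ _ h2 h1)

theorem Idl.pw {D I : Set (Λ × Λ)} (hD : Tr D) (h : Idl D I) (k : ℕ) : Idl D (pw I k) := by
  induction k with
  | zero => exact h
  | succ k ih => exact ih.cmp hD

theorem pw_anti {D : Set (Λ × Λ)} (hD : Tr D) {k l : ℕ} (h : k ≤ l) : pw D l ⊆ pw D k := by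
  induction l, h using Nat.le_induction with
  | base => exact le_rfl
  | succ l _ ih =>
    refine subset_trans ?_ ih
    rintro ⟨x, z⟩ ⟨y, h1, h2⟩
    exact ((Idl.refl hD).pw hD l).left _ _ _ (((Idl.refl hD).pw hD l).sub h1) h2

/-- the pairs of points of a set -/
def pairs (S : Set Λ) : Set (Λ × Λ) := {p | p.1 ∈ S ∧ p.2 ∈ S ∧ p.1 < p.2}

theorem tr_pairs (S : Set Λ) : Tr (pairs S) :=
  ⟨fun _ _ h => h.2.2, fun _ _ _ h1 h2 => ⟨h1.1, h2.2.1, h1.2.2.trans h2.2.2⟩⟩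

variable (g : Λ ≃o Λ) (S : Finset Λ)

/-- the union of the orbits -/
def orb : Set Λ := {x | ∃ k : ℤ, ∃ s ∈ S, x = (g ^ k) s}

def D0 : Set (Λ × Λ) := pairs (orb g S)

def D1 : Set (Λ × Λ) := {p | p ∈ D0 g S ∧ ¬ ∃ m : ℤ, p.2 ≤ (g ^ m) p.1}

/-- invariance under the automorphism -/
def Inv (D : Set (Λ × Λ)) : Prop := ∀ x y, (g x, g y) ∈ D ↔ (x, y) ∈ D

theorem zpow_add' (m n : ℤ) (x : Λ) : (g ^ (m + n)) x = (g ^ m) ((g ^ n) x) := by
  rw [zpow_add]; rfl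

theorem inv_cmp {D : Set (Λ × Λ)} (h : Inv g D) : Inv g (cmp D D) := by
  intro x z
  constructor
  · rintro ⟨y, h1, h2⟩
    refine ⟨g.symm y, ?_, ?_⟩
    · rw [← h]; simpa using h1
    · rw [← h]; simpa using h2
  · rintro ⟨y, h1, h2⟩
    exact ⟨g y, (h _ _).2 h1, (h _ _).2 h2⟩

theorem inv_pw {D : Set (Λ × Λ)} (h : Inv g D) (k : ℕ) : Inv g (pw D k) := by
  induction k with
  | zero => exact h
  | succ k ih => exact inv_cmp g ih

theorem inv_union {D D' : Set (Λ × Λ)} (h : Inv g D) (h' : Inv g D') : Inv g (D ∪ D') :=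
  fun x y => or_congr (h x y) (h' x y)

theorem orb_inv (x : Λ) : g x ∈ orb g S ↔ x ∈ orb g S := by
  constructor
  · rintro ⟨k, s, hs, h⟩
    refine ⟨-1 + k, s, hs, ?_⟩
    rw [zpow_add', ← h, zpow_neg_one]
    exact (g.symm_apply_apply x).symm
  · rintro ⟨k, s, hs, h⟩
    refine ⟨1 + k, s, hs, ?_⟩
    rw [zpow_add', ← h, zpow_one]

theorem inv_D0 : Inv g (D0 g S) := by
  intro x y
  show (_ ∧ _ ∧ _) ↔ (_ ∧ _ ∧ _)
  rw [orb_inv, orb_inv]
  simp

theorem inv_D1 : Inv g (D1 g S) := by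
  intro x y
  refine and_congr (inv_D0 g S x y) (not_congr (exists_congr (fun m => ?_)))
  show g y ≤ (g ^ m) (g x) ↔ y ≤ (g ^ m) x
  have h1 : (g ^ m) (g x) = g ((g ^ m) x) := by
    have h2 : (g ^ m) (g x) = (g ^ (m + 1)) x := by rw [zpow_add', zpow_one]
    have h3 : g ((g ^ m) x) = (g ^ (1 + m)) x := by rw [zpow_add', zpow_one]
    rw [h2, h3, add_comm]
  rw [h1]
  simp

theorem tr_D0 : Tr (D0 g S) := tr_pairs _

theorem idl_D1 : Idl (D0 g S) (D1 g S) := by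
  refine ⟨fun p hp => hp.1, ?_, ?_⟩
  · rintro x y z h1 ⟨h2, h3⟩
    refine ⟨(tr_D0 g S).trans _ _ _ h1 h2, ?_⟩
    rintro ⟨m, hm⟩
    exact h3 ⟨m, le_trans hm ((g ^ m).monotone h1.2.2.le)⟩
  · rintro x y z ⟨h2, h3⟩ h1
    refine ⟨(tr_D0 g S).trans _ _ _ h2 h1, ?_⟩
    rintro ⟨m, hm⟩
    exact h3 ⟨m, le_trans h1.2.2.le hm⟩

theorem tr_D1 : Tr (D1 g S) := (idl_D1 g S).tr (tr_D0 g S)

/-- the relation `D1` is nilpotent -/
theorem pw_D1 : pw (D1 g S) S.card = ∅ := by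
  classical
  let F : Λ → Λ → Finset Λ := fun x y => S.filter (fun s => ∃ j : ℤ, x ≤ (g ^ j) s ∧ (g ^ j) s ≤ y)
  have key : ∀ k x y, (x, y) ∈ pw (D1 g S) k → k + 1 ≤ (F x y).card := by
    intro k
    induction k with
    | zero =>
      rintro x y ⟨⟨_, ⟨j, s, hs, h⟩, hxy⟩, _⟩
      rw [Nat.succ_le_iff, Finset.card_pos]
      refine ⟨s, Finset.mem_filter.2 ⟨hs, j, ?_, ?_⟩⟩
      · rw [← h]; exact hxy.le
      · exact h.symm.le
    | succ k ih =>
      rintro x z ⟨y, h1, h2⟩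
      have h3 := ih x y h1
      have hyz : (y, z) ∈ D1 g S := ((Idl.refl (tr_D1 g S)).pw (tr_D1 g S) k).sub h2
      have hxy : (x, y) ∈ D1 g S := ((Idl.refl (tr_D1 g S)).pw (tr_D1 g S) k).sub h1
      have hlt1 : x < y := hxy.1.2.2
      have hlt2 : y < z := hyz.1.2.2
      obtain ⟨j, s, hs, h⟩ := hyz.1.2.1
      have h4 : F x y ⊂ F x z := by
        refine (Finset.ssubset_iff_of_subset ?_).2 ⟨s, ?_, ?_⟩
        · intro t ht
          obtain ⟨h5, i, h6, h7⟩ := Finset.mem_filter.1 ht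
          exact Finset.mem_filter.2 ⟨h5, i, h6, h7.trans hlt2.le⟩
        · refine Finset.mem_filter.2 ⟨hs, j, ?_, h.symm.le⟩
          rw [← h]; exact (hlt1.trans hlt2).le
        · intro ht
          obtain ⟨h5, i, h6, h7⟩ := Finset.mem_filter.1 ht
          refine hyz.2 ⟨j - i, ?_⟩
          have h8 : (g ^ (j - i)) ((g ^ i) s) = z := by
            rw [← zpow_add', sub_add_cancel]; exact h.symm
          show z ≤ (g ^ (j - i)) y
          rw [← h8]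
          exact (g ^ (j - i)).monotone h7
      have h5 := Finset.card_lt_card h4
      omega
  rw [Set.eq_empty_iff_forall_notMem]
  rintro ⟨x, y⟩ h
  have h1 := key _ x y h
  have h2 := Finset.card_filter_le S (fun s => ∃ j : ℤ, x ≤ (g ^ j) s ∧ (g ^ j) s ≤ y)
  exact absurd (le_trans h1 h2) (by omega)

variable {g}

theorem iter_le {x : Λ} {e : ℤ} (h : x ≤ (g ^ e) x) (n : ℕ) : x ≤ (g ^ (n * e)) x := by
  induction n with
  | zero => simp
  | succ n ih =>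
    have h1 : ((n + 1 : ℕ) : ℤ) * e = e + n * e := by push_cast; ring
    rw [h1, zpow_add']
    exact h.trans ((g ^ e).monotone ih)

theorem iter_lt {x : Λ} {e : ℤ} (h : x < (g ^ e) x) (n : ℕ) (hn : 0 < n) : x < (g ^ (n * e)) x := by
  obtain ⟨m, rfl⟩ : ∃ m, n = m + 1 := ⟨n - 1, by omega⟩
  have h1 : ((m + 1 : ℕ) : ℤ) * e = e + m * e := by push_cast; ring
  rw [h1, zpow_add']
  exact h.trans_le ((g ^ e).monotone (iter_le h.le m))

theorem sign {x : Λ} {m e : ℤ} (h : x < (g ^ m) x) (h' : x ≤ (g ^ e) x) : 0 ≤ m * e := by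
  by_contra hneg
  rw [not_le] at hneg
  rcases mul_neg_iff.1 hneg with ⟨h1, h2⟩ | ⟨h1, h2⟩
  · -- m > 0, e < 0
    have h3 := iter_le h' m.toNat
    have h4 := iter_lt h (-e).toNat (by omega)
    rw [Int.toNat_of_nonneg h1.le] at h3
    rw [Int.toNat_of_nonneg (by omega)] at h4
    have h5 := (g ^ (m * e)).strictMono h4
    rw [← zpow_add', show m * e + -e * m = 0 by ring, zpow_zero] at h5
    exact absurd (h3.trans_lt h5) (lt_irrefl _)
  · have h3 := iter_le h' (-m).toNat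
    have h4 := iter_lt h e.toNat (by omega)
    rw [Int.toNat_of_nonneg (by omega)] at h3
    rw [Int.toNat_of_nonneg (by omega)] at h4
    have h5 := (g ^ (-m * e)).strictMono h4
    rw [← zpow_add', show -m * e + e * m = 0 by ring, zpow_zero] at h5
    exact absurd (h3.trans_lt h5) (lt_irrefl _)

theorem fin_int {x y : Λ} {m : ℤ} (hxy : x < y) (h : y ≤ (g ^ m) x) :
    {z | z ∈ orb g S ∧ x ≤ z ∧ z ≤ y}.Finite := by
  classical
  have h1 : {z | z ∈ orb g S ∧ x ≤ z ∧ z ≤ y} ⊆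
      ⋃ s ∈ S, {z | (∃ k : ℤ, z = (g ^ k) s) ∧ x ≤ z ∧ z ≤ y} := by
    rintro z ⟨⟨k, s, hs, h1⟩, h2⟩
    simp only [Set.mem_iUnion]
    exact ⟨s, hs, ⟨k, h1⟩, h2⟩
  refine Set.Finite.subset (Set.Finite.biUnion S.finite_toSet (fun s _ => ?_)) h1
  by_cases hne : ∃ z, (∃ k : ℤ, z = (g ^ k) s) ∧ x ≤ z ∧ z ≤ y
  · obtain ⟨z, ⟨k0, rfl⟩, hz1, hz2⟩ := hne
    refine Set.Finite.subset ((Set.finite_Icc (k0 - |m|) (k0 + |m|)).image
      (fun k : ℤ => (g ^ k) s)) ?_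
    rintro _ ⟨⟨k, rfl⟩, h2, h3⟩
    refine ⟨k, ?_, rfl⟩
    have hlt : x < (g ^ m) x := hxy.trans_le h
    have gen : ∀ a b : ℤ, x ≤ (g ^ a) s → (g ^ b) s ≤ (g ^ m) x → 0 ≤ m * (a - b + m) := by
      intro a b ha hb
      refine sign hlt ?_
      refine ha.trans ?_
      have h4 := (g ^ (a - b)).monotone hb
      rw [← zpow_add', ← zpow_add', sub_add_cancel] at h4
      exact h4
    have h4 := gen k k0 h2 (hz2.trans h)
    have h5 := gen k0 k hz1 (h3.trans h)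
    have hm : m ≠ 0 := by
      rintro rfl
      rw [zpow_zero] at hlt
      exact lt_irrefl _ hlt
    have h6 : |m| * |k - k0| ≤ |m| * |m| := by
      rw [← abs_mul, abs_mul_abs_self, abs_le]
      constructor <;> nlinarith
    have h7 : |k - k0| ≤ |m| := le_of_mul_le_mul_left h6 (abs_pos.2 hm)
    rw [abs_le] at h7
    constructor <;> linarith [h7.1, h7.2]
  · refine Set.Finite.subset Set.finite_empty ?_
    rintro z hz
    exact absurd ⟨z, hz⟩ hne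

theorem card_pw {k : ℕ} : ∀ {x y : Λ}, (x, y) ∈ pw (D0 g S) k →
    {z | z ∈ orb g S ∧ x ≤ z ∧ z ≤ y}.Finite →
    k < {z | z ∈ orb g S ∧ x ≤ z ∧ z ≤ y}.ncard := by
  induction k with
  | zero =>
    intro x y h hf
    rw [Set.ncard_pos hf]
    exact ⟨x, h.1, le_rfl, h.2.2.le⟩
  | succ k ih =>
    rintro x z ⟨y, h1, h2⟩ hf
    have hxy : (x, y) ∈ D0 g S := ((Idl.refl (tr_D0 g S)).pw (tr_D0 g S) k).sub h1
    have hyz : (y, z) ∈ D0 g S := ((Idl.refl (tr_D0 g S)).pw (tr_D0 g S) k).sub h2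
    have h3 : {w | w ∈ orb g S ∧ x ≤ w ∧ w ≤ y} ⊂ {w | w ∈ orb g S ∧ x ≤ w ∧ w ≤ z} := by
      refine (Set.ssubset_iff_of_subset ?_).2 ⟨z, ⟨hyz.2.1, ?_, le_rfl⟩, ?_⟩
      · rintro w ⟨h3, h4, h5⟩
        exact ⟨h3, h4, h5.trans hyz.2.2.le⟩
      · exact (hxy.2.2.trans hyz.2.2).le
      · rintro ⟨_, _, h5⟩
        exact absurd (hyz.2.2.trans_le h5) (lt_irrefl _)
    have h4 := ih (x := x) (y := y) h1 (hf.subset h3.subset)
    have h5 := Set.ncard_lt_ncard h3 hf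
    omega

/-- finitely many pairs in the iterated compositions of `D0` with itself are in `D1` -/
theorem exists_pw (P : Set (Λ × Λ)) (hP : P.Finite) :
    ∃ d, ∀ p ∈ P, p ∈ pw (D0 g S) d → p ∈ D1 g S := by
  induction P, hP using Set.Finite.induction_on with
  | empty => exact ⟨0, fun p hp => absurd hp (Set.notMem_empty p)⟩
  | @insert p P _ _ ih =>
    obtain ⟨d, hd⟩ := ih
    obtain ⟨e, he⟩ : ∃ e, p ∈ pw (D0 g S) e → p ∈ D1 g S := by
      by_cases hp : p ∈ D0 g S ∧ p ∉ D1 g S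
      · obtain ⟨h1, h2⟩ := hp
        have h3 : ∃ m : ℤ, p.2 ≤ (g ^ m) p.1 := by
          by_contra h3
          exact h2 ⟨h1, h3⟩
        obtain ⟨m, hm⟩ := h3
        have hfin := fin_int (g := g) S h1.2.2 hm
        refine ⟨_, fun h => absurd (card_pw (g := g) S (x := p.1) (y := p.2) h hfin)
          (lt_irrefl _)⟩
      · refine ⟨0, fun h => ?_⟩
        by_contra h3
        exact hp ⟨h, h3⟩
    refine ⟨max d e, ?_⟩
    rintro q hq hqd
    rcases Set.mem_insert_iff.1 hq with rfl | hq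
    · exact he (pw_anti (tr_D0 g S) (le_max_right d e) hqd)
    · exact hd q hq (pw_anti (tr_D0 g S) (le_max_left d e) hqd)

end Pool.Agent.H63N.FJ.Pos
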