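import Pool.Agent.H63N.FJ.Det

/-!
# Locally poly-(periodic or cyclic) kernels which are detected by torsion-free quotients
-/

set_option autoImplicit false

namespace Pool.Agent.H63N.FJ

open Pool.Agent.Y110.FJ
open Pool.Agent.Y462.SS (Closed)
open Pool.Agent.H65FJ

variable {C : ∀ (G : Type) [Group G], Prop}

/-- `B` has a finite series of subgroups, each normal in the next one, with periodic or cyclic
factors -/
def PolyPC {G : Type} [Group G] (B : Subgroup G) : Prop :=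
  ∃ (n : ℕ) (f : ℕ → Subgroup G), f 0 = ⊥ ∧ f n = B ∧ ∀ i < n, f i ≤ f (i + 1) ∧
    (∀ x ∈ f (i + 1), ∀ y ∈ f i, x * y * x⁻¹ ∈ f i) ∧
    ((∀ x ∈ f (i + 1), ∃ m : ℕ, 0 < m ∧ x ^ m ∈ f i) ∨
      ∃ c ∈ f (i + 1), ∀ x ∈ f (i + 1), ∃ k : ℤ, x * c ^ k ∈ f i)

section

variable {G : Type} [Group G]

/-- the factors in which `K` has elements of infinite order -/
noncomputable def lvl (n : ℕ) (f : ℕ → Subgroup G) (K : Subgroup G) : Finset ℕ :=
  open Classical in
  (Finset.range n).filter (fun i => ∃ y ∈ K, y ∈ f (i + 1) ∧ ∀ m : ℕ, 0 < m → y ^ m ∉ f i)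

theorem lvl_mono (n : ℕ) (f : ℕ → Subgroup G) {K' K : Subgroup G} (h : K' ≤ K) :
    lvl n f K' ⊆ lvl n f K := by
  classical
  intro i hi
  obtain ⟨h1, y, h2, h3, h4⟩ := Finset.mem_filter.1 hi
  exact Finset.mem_filter.2 ⟨h1, y, h h2, h3, h4⟩

/-- congruence in cyclic factors -/
theorem cyc_factor {A A' : Subgroup G} (hle : A ≤ A') (hn : ∀ x ∈ A', ∀ y ∈ A, x * y * x⁻¹ ∈ A)
    {c x y : G} (hc : c ∈ A') (hx : x ∈ A') (hy : y ∈ A') {a b : ℤ} (h1 : x * c ^ a ∈ A)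
    (h2 : y * c ^ b ∈ A) : x ^ b * y ^ (-a) ∈ A := by
  have hnorm : (A.subgroupOf A').Normal := ⟨fun z hz w => hn w w.2 z hz⟩
  let q : A' → A' ⧸ A.subgroupOf A' := fun z => (z : A' ⧸ A.subgroupOf A')
  have e1 : (QuotientGroup.mk' (A.subgroupOf A')) ⟨x, hx⟩ *
      (QuotientGroup.mk' (A.subgroupOf A')) ⟨c, hc⟩ ^ a = 1 := by
    rw [← map_zpow, ← map_mul]
    exact (QuotientGroup.eq_one_iff _).2 h1
  have e2 : (QuotientGroup.mk' (A.subgroupOf A')) ⟨y, hy⟩ *
      (QuotientGroup.mk' (A.subgroupOf A')) ⟨c, hc⟩ ^ b = 1 := by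
    rw [← map_zpow, ← map_mul]
    exact (QuotientGroup.eq_one_iff _).2 h2
  have e3 : (QuotientGroup.mk' (A.subgroupOf A')) (⟨x, hx⟩ ^ b * ⟨y, hy⟩ ^ (-a)) = 1 := by
    rw [map_mul, map_zpow, map_zpow, eq_inv_of_mul_eq_one_left e1, eq_inv_of_mul_eq_one_left e2]
    rw [← zpow_neg, ← zpow_neg, ← zpow_mul, ← zpow_mul, ← zpow_add]
    rw [show -a * b + -b * -a = 0 by ring, zpow_zero]
  exact (QuotientGroup.eq_one_iff (N := A.subgroupOf A') _).1 e3

theorem lvl_eq {n : ℕ} {f : ℕ → Subgroup G} {B : Subgroup G} (h0 : f 0 = ⊥) (hB : f n = B)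
    (hf : ∀ i < n, f i ≤ f (i + 1) ∧ (∀ x ∈ f (i + 1), ∀ y ∈ f i, x * y * x⁻¹ ∈ f i) ∧
    ((∀ x ∈ f (i + 1), ∃ m : ℕ, 0 < m ∧ x ^ m ∈ f i) ∨
      ∃ c ∈ f (i + 1), ∀ x ∈ f (i + 1), ∃ k : ℤ, x * c ^ k ∈ f i))
    {K' K : Subgroup G} (hK : K' ≤ K)
    (hiso : ∀ y ∈ K, ∀ m : ℕ, 0 < m → y ^ m ∈ K' → y ∈ K')
    (hl : (lvl n f K).card ≤ (lvl n f K').card) : ∀ x ∈ K, x ∈ B → x ∈ K' := by
  classical
  have hle : lvl n f K' = lvl n f K := Finset.eq_of_subset_of_card_le (lvl_mono n f hK) hl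
  have key : ∀ i ≤ n, ∀ x ∈ K, x ∈ f i → x ∈ K' := by
    intro i
    induction i with
    | zero =>
      intro _ x _ hx
      rw [h0] at hx
      rw [Subgroup.mem_bot.1 hx]
      exact one_mem _
    | succ i ih =>
      intro hi x hxK hx
      have ih' := ih (Nat.le_of_succ_le hi)
      obtain ⟨h1, h2, h3⟩ := hf i hi
      by_cases hi' : i ∈ lvl n f K
      · rw [← hle] at hi'
        obtain ⟨_, y, hyK, hy, hym⟩ := Finset.mem_filter.1 hi'
        rcases h3 with h3 | ⟨c, hc, h3⟩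
        · obtain ⟨m, hm, hm'⟩ := h3 y hy
          exact absurd hm' (hym m hm)
        · obtain ⟨a, ha⟩ := h3 x hx
          obtain ⟨b, hb⟩ := h3 y hy
          have hb0 : b ≠ 0 := by
            rintro rfl
            rw [zpow_zero, mul_one] at hb
            exact hym 1 one_pos (by rw [pow_one]; exact hb)
          have h4 := cyc_factor h1 h2 hc hx hy ha hb
          have h5 : x ^ b * y ^ (-a) ∈ K' :=
            ih' _ (mul_mem (zpow_mem hxK b) (zpow_mem (hK hyK) _)) h4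
          have h6 : x ^ b ∈ K' := by
            have h7 : x ^ b = (x ^ b * y ^ (-a)) * (y ^ (-a))⁻¹ := by group
            rw [h7]
            exact mul_mem h5 (inv_mem (zpow_mem hyK _))
          have h7 : x ^ b.natAbs ∈ K' := by
            rcases Int.natAbs_eq b with h8 | h8
            · rw [← zpow_natCast, ← h8]; exact h6
            · have h9 : x ^ b.natAbs = (x ^ b)⁻¹ := by
                rw [← zpow_neg, ← zpow_natCast]
                congr 1
                omega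
              rw [h9]; exact inv_mem h6
          exact hiso x hxK _ (Int.natAbs_pos.2 hb0) h7
      · have h4 : ∃ m : ℕ, 0 < m ∧ x ^ m ∈ f i := by
          by_contra h4
          push Not at h4
          exact hi' (Finset.mem_filter.2 ⟨Finset.mem_range.2 hi, x, hxK, hx, h4⟩)
        obtain ⟨m, hm, hm'⟩ := h4
        exact hiso x hxK m hm (ih' _ (pow_mem hxK m) hm')
  intro x hxK hx
  exact key n le_rfl x hxK (by rw [hB]; exact hx)

/-- **Kernels detected by torsion-free quotients.** -/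
theorem residual (hC : ClosedE C) (N : Subgroup G) [hN : N.Normal] (hQ : C (G ⧸ N))
    (hloc : ∀ E : Set G, E.Finite → E ⊆ N → PolyPC (Subgroup.closure E))
    (hres : ∀ x ∈ N, x ≠ 1 → ∃ (K : Subgroup G) (_ : K.Normal), x ∉ K ∧ C (G ⧸ K) ∧
      ∀ y ∈ N, ∀ m : ℕ, 0 < m → y ^ m ∈ K → y ∈ K) : C G := by
  classical
  refine detected hC ⊥ N bot_le hQ (fun x => ?_) ?_
  · rw [bot_sup_eq]
    exact cyc hC.base G x
  · intro E hE hEN
    obtain ⟨n, f, h0, hB, hf⟩ := hloc E hE hEN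
    have hBN : Subgroup.closure E ≤ N := (Subgroup.closure_le N).2 hEN
    -- the set of the subgroups
    let P : Subgroup G → Prop := fun K => K.Normal ∧ C (G ⧸ K.normalCore) ∧
      ∀ y ∈ N, ∀ m : ℕ, 0 < m → y ^ m ∈ K → y ∈ K
    have hCK : ∀ (K : Subgroup G) [K.Normal], C (G ⧸ K.normalCore) ↔ C (G ⧸ K) := by
      intro K _
      have h1 : K.normalCore = K := Subgroup.normalCore_eq_self K
      constructor
      · intro h
        exact hC.base.of_injective _ _ (QuotientGroup.quotientMulEquivOfEq h1).symm.toMonoidHom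
          (QuotientGroup.quotientMulEquivOfEq h1).symm.injective h
      · intro h
        exact hC.base.of_injective _ _ (QuotientGroup.quotientMulEquivOfEq h1).toMonoidHom
          (QuotientGroup.quotientMulEquivOfEq h1).injective h
    have hex : ∃ d, ∃ K, P K ∧ (lvl n f (K ⊓ Subgroup.closure E)).card = d :=
      ⟨_, N, ⟨hN, (hCK N).2 hQ, fun y hy _ _ _ => hy⟩, rfl⟩
    obtain ⟨K, ⟨hK1, hK2, hK3⟩, hKd⟩ := Nat.find_spec hex
    refine ⟨K, hK1, bot_le, (hCK K).1 hK2, ?_⟩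
    rintro x ⟨hxE, hxK⟩
    rw [Subgroup.mem_bot]
    by_contra hx1
    obtain ⟨K', hK'n, hxK', hK'C, hK'iso⟩ := hres x (hBN hxE) hx1
    have hP : P (K ⊓ K') := by
      refine ⟨inferInstance, ?_, ?_⟩
      · have : (K ⊓ K').Normal := inferInstance
        rw [hCK (K ⊓ K')]
        exact inf_mem hC.base K K' ((hCK K).1 hK2) hK'C
      · intro y hy m hm hym
        exact ⟨hK3 y hy m hm hym.1, hK'iso y hy m hm hym.2⟩
    have hmin := Nat.find_min' hex ⟨K ⊓ K', hP, rfl⟩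
    rw [← hKd] at hmin
    have h2 := lvl_eq h0 hB hf (K' := (K ⊓ K') ⊓ Subgroup.closure E)
      (K := K ⊓ Subgroup.closure E) (inf_le_inf_right _ inf_le_left) ?_ hmin x ⟨hxK, hxE⟩ hxE
    · exact hxK' h2.1.2
    · rintro y ⟨hy1, hy2⟩ m hm hym
      exact ⟨⟨hy1, hK'iso y (hBN hy2) m hm hym.1.2⟩, hy2⟩

end

end Pool.Agent.H63N.FJ
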