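import Pool.Agent.H63N.FJ.Res

/-!
# Locally poly-(periodic or cyclic), residually (torsion-free solvable) kernels
-/

set_option autoImplicit false

namespace Pool.Agent.H63N.FJ

open Pool.Agent.Y110.FJ
open Pool.Agent.Y462.SS (Closed)
open Pool.Agent.H65FJ

variable {C : ∀ (G : Type) [Group G], Prop}

/-- residually (torsion-free solvable) -/
def ResTfs (M : Type) [Group M] : Prop :=
  ∀ x : M, x ≠ 1 → ∃ (K : Subgroup M) (_ : K.Normal), x ∉ K ∧ Group.IsSolvable (M ⧸ K) ∧
    ∀ (y : M) (m : ℕ), 0 < m → y ^ m ∈ K → y ∈ K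

/-- every finitely generated subgroup is poly-(periodic or cyclic) -/
def LocPC (M : Type) [Group M] : Prop :=
  ∀ E : Set M, E.Finite → PolyPC (Subgroup.closure E)

theorem PolyPC.map {M G : Type} [Group M] [Group G] (j : M →* G)
    {B : Subgroup M} (h : PolyPC B) : PolyPC (B.map j) := by
  obtain ⟨n, f, h0, hB, hf⟩ := h
  refine ⟨n, fun i => (f i).map j, by simp only [h0, Subgroup.map_bot], by simp only [hB], ?_⟩
  intro i hi
  obtain ⟨h1, h2, h3⟩ := hf i hi
  refine ⟨Subgroup.map_mono h1, ?_, ?_⟩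
  · rintro _ ⟨x, hx, rfl⟩ _ ⟨y, hy, rfl⟩
    exact ⟨x * y * x⁻¹, h2 x hx y hy, by simp⟩
  · rcases h3 with h3 | ⟨c, hc, h3⟩
    · left
      rintro _ ⟨x, hx, rfl⟩
      obtain ⟨m, hm, hm'⟩ := h3 x hx
      exact ⟨m, hm, x ^ m, hm', by simp⟩
    · right
      refine ⟨j c, ⟨c, hc, rfl⟩, ?_⟩
      rintro _ ⟨x, hx, rfl⟩
      obtain ⟨k, hk⟩ := h3 x hx
      exact ⟨k, x * c ^ k, hk, by simp⟩

theorem PolyPC.comap {M G : Type} [Group M] [Group G] (j : M →* G) (hj : Function.Injective j)
    {B : Subgroup G} (h : PolyPC B) (hB' : B ≤ j.range) : PolyPC (B.comap j) := by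
  obtain ⟨n, f, h0, hB, hf⟩ := h
  refine ⟨n, fun i => (f i).comap j, ?_, by simp only [hB], ?_⟩
  · show (f 0).comap j = ⊥
    rw [h0]
    exact (MonoidHom.ker_eq_bot_iff j).2 hj
  have hle : ∀ i ≤ n, f i ≤ B := by
    intro i hi
    induction hi using Nat.decreasingInduction with
    | self => exact hB.le
    | of_succ i hi ih => exact (hf i hi).1.trans ih
  intro i hi
  obtain ⟨h1, h2, h3⟩ := hf i hi
  refine ⟨Subgroup.comap_mono h1, ?_, ?_⟩
  · intro x hx y hy
    show j (x * y * x⁻¹) ∈ f i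
    rw [map_mul, map_mul, map_inv]
    exact h2 _ hx _ hy
  · rcases h3 with h3 | ⟨c, hc, h3⟩
    · left
      intro x hx
      obtain ⟨m, hm, hm'⟩ := h3 (j x) hx
      refine ⟨m, hm, ?_⟩
      show j (x ^ m) ∈ f i
      rw [map_pow]; exact hm'
    · right
      obtain ⟨c', rfl⟩ := hB' (hle (i + 1) hi hc)
      refine ⟨c', hc, ?_⟩
      intro x hx
      obtain ⟨k, hk⟩ := h3 (j x) hx
      refine ⟨k, ?_⟩
      show j (x * c' ^ k) ∈ f i
      rw [map_mul, map_zpow]; exact hk

theorem LocPC.of_injective {M G : Type} [Group M] [Group G] (j : M →* G)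
    (hj : Function.Injective j) (h : LocPC G) : LocPC M := by
  intro E hE
  have h1 := h (j '' E) (hE.image j)
  have h2 : (Subgroup.closure (j '' E)).comap j = Subgroup.closure E := by
    rw [← MonoidHom.map_closure, Subgroup.comap_map_eq_self_of_injective hj]
  rw [← h2]
  refine h1.comap j hj ?_
  rw [← MonoidHom.map_closure]
  exact Subgroup.map_le_range j _

theorem ResTfs.of_injective {M G : Type} [Group M] [Group G] (j : M →* G)
    (hj : Function.Injective j) (h : ResTfs G) : ResTfs M := by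
  intro x hx
  obtain ⟨K, hK, h1, h2, h3⟩ := h (j x) (fun h => hx (hj (h.trans (map_one j).symm)))
  refine ⟨K.comap j, hK.comap j, h1, ?_, ?_⟩
  · have hinj : Function.Injective (QuotientGroup.map (K.comap j) K j le_rfl) := by
      rw [injective_iff_map_eq_one]
      intro y hy
      obtain ⟨z, rfl⟩ := QuotientGroup.mk_surjective y
      rw [QuotientGroup.map_mk] at hy
      refine (QuotientGroup.eq_one_iff _).2 ?_
      show j z ∈ K
      exact (QuotientGroup.eq_one_iff _).1 hy
    exact Group.isSolvable_of_isSolvable_injective hinj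
  · intro y m hm hy
    refine h3 (j y) m hm ?_
    rw [← map_pow]; exact hy

/-- **Extensions of locally poly-(periodic or cyclic), residually (torsion-free solvable) groups.** -/
theorem tfs_ext (hC : ClosedE C) (hS : ∀ (G : Type) [Group G], Group.IsSolvable G → C G)
    {G : Type} [Group G] (N : Subgroup G) [hN : N.Normal] (hQ : C (G ⧸ N))
    (hloc : LocPC ↥N) (hres : ResTfs ↥N) : C G := by
  classical
  refine residual hC N hQ ?_ ?_
  · intro E hE hEN
    have h1 := hloc ((N.subtype) ⁻¹' E) (hE.preimage N.subtype_injective.injOn)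
    have h2 := h1.map N.subtype
    have h3 : (Subgroup.closure ((N.subtype) ⁻¹' E)).map N.subtype = Subgroup.closure E := by
      rw [MonoidHom.map_closure]
      congr 1
      ext x
      constructor
      · rintro ⟨y, hy, rfl⟩; exact hy
      · intro hx; exact ⟨⟨x, hEN hx⟩, hx, rfl⟩
    rw [h3] at h2
    exact h2
  · intro x hx hx1
    obtain ⟨K, hK, hxK, hKs, hKt⟩ := hres ⟨x, hx⟩ (fun h => hx1 (congrArg Subtype.val h))
    let K' : Subgroup G := (K.map N.subtype).normalCore
    have hK'n : K'.Normal := Subgroup.normalCore_normal _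
    have hK'le : K' ≤ K.map N.subtype := Subgroup.normalCore_le _
    have hK'N : K' ≤ N := hK'le.trans (by rintro _ ⟨y, _, rfl⟩; exact y.2)
    have hmemK : ∀ y ∈ K', ∀ hy : y ∈ N, (⟨y, hy⟩ : N) ∈ K := by
      intro y hy hyN
      obtain ⟨z, hz, hzy⟩ := hK'le hy
      have : z = ⟨y, hyN⟩ := Subtype.ext hzy
      rw [← this]; exact hz
    refine ⟨K', hK'n, fun h => hxK (hmemK x h hx), ?_, ?_⟩
    · -- the quotient
      have hn : (N.map (QuotientGroup.mk' K')).Normal :=
        Subgroup.Normal.map hN _ (QuotientGroup.mk'_surjective K')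
      obtain ⟨d, hd⟩ := hKs
      have h1 : derivedSeries N d ≤ K := by
        have h2 := map_derivedSeries_eq (QuotientGroup.mk'_surjective K) d
        rw [hd, Subgroup.map_eq_bot_iff, QuotientGroup.ker_mk'] at h2
        exact h2
      have h2 : (derivedSeries N d).map N.subtype ≤ K' := by
        have h3 : ((derivedSeries N d).map N.subtype).Normal :=
          ConjAct.normal_of_characteristic_of_normal
        exact Subgroup.normal_le_normalCore.2 (Subgroup.map_mono h1)
      have hsolv : Group.IsSolvable ↥(N.map (QuotientGroup.mk' K')) := by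
        have hsurj := (QuotientGroup.mk' K').subgroupMap_surjective N
        refine ⟨⟨d, ?_⟩⟩
        rw [← map_derivedSeries_eq hsurj, eq_bot_iff]
        rintro _ ⟨y, hy, rfl⟩
        refine Subgroup.mem_bot.2 (Subtype.ext ?_)
        exact (QuotientGroup.eq_one_iff _).2 (h2 ⟨y, hy, rfl⟩)
      refine ext_absorbed hC (N.map (QuotientGroup.mk' K')) (fun y => hS _ (solv_sup _ y hsolv)) ?_
      exact hC.base.of_injective _ _
        (QuotientGroup.quotientQuotientEquivQuotient K' N hK'N).toMonoidHom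
        (QuotientGroup.quotientQuotientEquivQuotient K' N hK'N).injective hQ
    · intro y hy m hm hym a
      -- `a y a⁻¹` is in `K`
      have h1 := hym a
      have h2 : a * y ^ m * a⁻¹ = (a * y * a⁻¹) ^ m := by rw [conj_pow]
      rw [h2] at h1
      obtain ⟨z, hz, hz2⟩ := h1
      have h3 : a * y * a⁻¹ ∈ N := hN.conj_mem y hy a
      have h4 : z = (⟨a * y * a⁻¹, h3⟩ : N) ^ m := Subtype.ext hz2
      rw [h4] at hz
      exact ⟨⟨a * y * a⁻¹, h3⟩, hKt _ m hm hz, rfl⟩

/-- the normal subgroup `A` with these properties and one more element -/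
theorem tfs_sup (hC : ClosedE C) (hS : ∀ (G : Type) [Group G], Group.IsSolvable G → C G)
    {H : Type} [Group H] (A : Subgroup H) [A.Normal] (h : H)
    (hloc : LocPC ↥A) (hres : ResTfs ↥A) : C ↥(A ⊔ Subgroup.zpowers h) := by
  obtain ⟨c, hc⟩ := sup_cyc A h
  let e := Subgroup.subgroupOfEquivOfLe (show A ≤ A ⊔ Subgroup.zpowers h from le_sup_left)
  refine tfs_ext hC hS (A.subgroupOf (A ⊔ Subgroup.zpowers h)) ?_
    (hloc.of_injective e.toMonoidHom e.injective) (hres.of_injective e.toMonoidHom e.injective)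
  have h3 : Subgroup.zpowers c = ⊤ := by
    rw [Subgroup.eq_top_iff']; exact hc
  exact hC.base.of_injective _ _
    (Subgroup.topEquiv (G := ↥(A ⊔ Subgroup.zpowers h) ⧸
      A.subgroupOf (A ⊔ Subgroup.zpowers h))).symm.toMonoidHom
    (Subgroup.topEquiv (G := ↥(A ⊔ Subgroup.zpowers h) ⧸
      A.subgroupOf (A ⊔ Subgroup.zpowers h))).symm.injective
    (of_eq h3 (cyc hC.base _ c))

end Pool.Agent.H63N.FJ
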