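import Pool.Agent.H63N.FJ.Det
import Pool.Agent.H63N.FJ.Pos

/-!
# Kernels with a triangular structure over a partially ordered set
-/

set_option autoImplicit false

namespace Pool.Agent.H63N.FJ

open Pool.Agent.Y110.FJ
open Pool.Agent.Y462.SS (Closed)
open Pool.Agent.H65FJ
open Pos

variable {C : ∀ (G : Type) [Group G], Prop}

/-- subgroups `H D` of `N` for the transitive sets `D` of pairs -/
structure Tri {G Λ : Type} [Group G] [PartialOrder Λ] (N : Subgroup G)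
    (H : Set (Λ × Λ) → Subgroup G) : Prop where
  le : ∀ D, Tr D → H D ≤ N
  mono : ∀ D D', Tr D → Tr D' → D ⊆ D' → H D ≤ H D'
  inter : ∀ D D', Tr D → Tr D' → ∀ a ∈ H D, a ∈ H D' → a ∈ H (D ∩ D')
  empty : H ∅ ≤ ⊥
  comm : ∀ D, Tr D → ∀ a ∈ H D, ∀ b ∈ H D, a * b * a⁻¹ * b⁻¹ ∈ H (cmp D D)
  conj : ∀ D I, Tr D → Idl D I → ∀ a ∈ H D, ∀ b ∈ H I, a * b * a⁻¹ ∈ H I
  total : ∀ n ∈ N, ∃ S : Finset Λ, n ∈ H (pairs (S : Set Λ))

theorem tr_inter {Λ : Type} [PartialOrder Λ] {D D' : Set (Λ × Λ)} (h : Tr D) (h' : Tr D') :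
    Tr (D ∩ D') :=
  ⟨fun x y hxy => h.lt x y hxy.1, fun x y z h1 h2 =>
    ⟨h.trans x y z h1.1 h2.1, h'.trans x y z h1.2 h2.2⟩⟩

section

variable {G Λ : Type} [Group G] [PartialOrder Λ] {N : Subgroup G}
  {H : Set (Λ × Λ) → Subgroup G}

theorem Tri.normal (h : Tri N H) {D I : Set (Λ × Λ)} (hD : Tr D) (hI : Idl D I) (g : G)
    (hg : ∀ x, x ∈ H I ↔ g * x * g⁻¹ ∈ H I) :
    ((H I).subgroupOf (H D ⊔ Subgroup.zpowers g)).Normal := by
  have h1 : H D ⊔ Subgroup.zpowers g ≤ Subgroup.normalizer (H I : Set G) := by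
    refine sup_le ?_ ?_
    · intro a ha
      rw [Subgroup.mem_normalizer_iff]
      intro b
      constructor
      · intro hb
        exact h.conj D I hD hI a ha b hb
      · intro hb
        have h2 := h.conj D I hD hI a⁻¹ (inv_mem ha) _ hb
        have h3 : a⁻¹ * (a * b * a⁻¹) * a⁻¹⁻¹ = b := by group
        rwa [h3] at h2
    · rw [Subgroup.zpowers_le, Subgroup.mem_normalizer_iff]
      exact hg
  constructor
  rintro ⟨x, hx⟩ hx1 ⟨y, hy⟩
  have h2 := Subgroup.mem_normalizer_iff.1 (h1 hy)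
  exact (h2 x).1 hx1

theorem Tri.cyc_orb (hC : ClosedE C) (hS : ∀ (G : Type) [Group G], Group.IsSolvable G → C G)
    (h : Tri N H) (g : G) (s : Λ ≃o Λ)
    (hg : ∀ D, Tr D → Inv s D → ∀ x, x ∈ H D ↔ g * x * g⁻¹ ∈ H D) (S : Finset Λ) :
    C ↥(H (D0 s S) ⊔ Subgroup.zpowers g) := by
  classical
  set G' : Subgroup G := H (D0 s S) ⊔ Subgroup.zpowers g with hG'
  have t0 := tr_D0 s S
  have i1 := idl_D1 s S
  have n1 : ((H (D1 s S)).subgroupOf G').Normal :=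
    h.normal t0 i1 g (hg _ (tr_D1 s S) (inv_D1 s S))
  have n0 : ((H (D0 s S)).subgroupOf G').Normal :=
    h.normal t0 (Idl.refl t0) g (hg _ t0 (inv_D0 s S))
  have hle1 : H (D1 s S) ≤ H (D0 s S) := h.mono _ _ (tr_D1 s S) t0 i1.sub
  refine core hC hS (G := G') ⟨g, Subgroup.mem_sup_right (Subgroup.mem_zpowers g)⟩
    ((H (D1 s S)).subgroupOf G') ((H (D0 s S)).subgroupOf G') ?_ ?_ ?_ ?_
  · intro x hx
    exact hle1 hx
  · rw [eq_top_iff]
    rintro ⟨x, hx⟩ _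
    have h1 : (((H (D0 s S)).subgroupOf G') ⊔ Subgroup.zpowers
        (⟨g, Subgroup.mem_sup_right (Subgroup.mem_zpowers g)⟩ : G')).map G'.subtype = G' := by
      rw [Subgroup.map_sup, MonoidHom.map_zpowers, Subgroup.subgroupOf_map_subtype,
        inf_eq_left.2 (le_sup_left : H (D0 s S) ≤ G')]
      rfl
    have h2 : x ∈ (((H (D0 s S)).subgroupOf G') ⊔ Subgroup.zpowers
        (⟨g, Subgroup.mem_sup_right (Subgroup.mem_zpowers g)⟩ : G')).map G'.subtype := by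
      rw [h1]; exact hx
    obtain ⟨y, hy, rfl⟩ := h2
    exact hy
  · refine solv_of_chain _ (fun i => (H (pw (D1 s S) i)).subgroupOf G') S.card le_rfl ?_ ?_
    · intro i a ha b hb
      exact h.comm _ (((Idl.refl (tr_D1 s S)).pw (tr_D1 s S) i).tr (tr_D1 s S)) _ ha _ hb
    · intro x hx
      have h1 : (x : G) ∈ H (pw (D1 s S) S.card) := hx
      rw [pw_D1] at h1
      exact Subgroup.mem_bot.2 (Subtype.ext (Subgroup.mem_bot.1 (h.empty h1)))
  · intro E hE hEM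
    -- the points of the elements of `E`
    have h1 : ∃ P : Finset Λ, ∀ x ∈ E, (x : G) ∈ H (pairs (P : Set Λ)) := by
      have h2 : ∀ x : G', ∃ P : Finset Λ, (x ∈ E → (x : G) ∈ H (pairs (P : Set Λ))) := by
        intro x
        by_cases hx : x ∈ E
        · obtain ⟨P, hP⟩ := h.total (x : G) (h.le _ t0 (hEM hx))
          exact ⟨P, fun _ => hP⟩
        · exact ⟨∅, fun hx' => absurd hx' hx⟩
      choose P hP using h2
      refine ⟨hE.toFinset.biUnion P, fun x hx => ?_⟩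
      refine h.mono _ _ (tr_pairs _) (tr_pairs _) ?_ (hP x hx)
      rintro ⟨a, b⟩ ⟨ha, hb, hab⟩
      refine ⟨?_, ?_, hab⟩
      · exact Finset.mem_coe.2 (Finset.mem_biUnion.2 ⟨x, hE.mem_toFinset.2 hx, ha⟩)
      · exact Finset.mem_coe.2 (Finset.mem_biUnion.2 ⟨x, hE.mem_toFinset.2 hx, hb⟩)
    obtain ⟨P, hP⟩ := h1
    have hfin : (pairs (P : Set Λ)).Finite :=
      ((P.finite_toSet).prod (P.finite_toSet)).subset (fun p hp => ⟨hp.1, hp.2.1⟩)
    obtain ⟨d, hd⟩ := exists_pw (g := s) S (pairs (P : Set Λ)) hfin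
    have iK : Idl (D0 s S) (D1 s S ∪ pw (D0 s S) d) := i1.union ((Idl.refl t0).pw t0 d)
    have vK : Inv s (D1 s S ∪ pw (D0 s S) d) :=
      inv_union s (inv_D1 s S) (inv_pw s (inv_D0 s S) d)
    have tK := iK.tr t0
    refine ⟨(H (D1 s S ∪ pw (D0 s S) d)).subgroupOf G', h.normal t0 iK g (hg _ tK vK), ?_, ?_, ?_⟩
    · intro x hx
      exact h.mono _ _ (tr_D1 s S) tK Set.subset_union_left hx
    · refine ⟨fun i => (H (pw (D0 s S) i)).subgroupOf G', d, le_rfl, ?_, ?_⟩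
      · intro i a ha b hb
        exact h.comm _ (((Idl.refl t0).pw t0 i).tr t0) _ ha _ hb
      · intro x hx
        exact h.mono _ _ (((Idl.refl t0).pw t0 d).tr t0) tK Set.subset_union_right hx
    · rintro x ⟨hx1, hx2⟩
      have h3 : (x : G) ∈ H (pairs (P : Set Λ)) := by
        have h4 : Subgroup.closure E ≤ (H (pairs (P : Set Λ))).subgroupOf G' := by
          rw [Subgroup.closure_le]
          intro y hy
          exact hP y hy
        exact h4 hx1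
      have h5 := h.inter _ _ (tr_pairs _) tK (x : G) h3 hx2
      refine h.mono _ _ (tr_inter (tr_pairs _) tK) (tr_D1 s S) ?_ h5
      rintro p ⟨hp1, hp2 | hp2⟩
      · exact hp2
      · exact hd p hp1 hp2

theorem orb_mono (s : Λ ≃o Λ) {S T : Finset Λ} (h : S ⊆ T) : D0 s S ⊆ D0 s T := by
  rintro ⟨x, y⟩ ⟨⟨k, a, ha, h1⟩, ⟨l, b, hb, h2⟩, h3⟩
  exact ⟨⟨k, a, h ha, h1⟩, ⟨l, b, h hb, h2⟩, h3⟩

theorem Tri.cyc (hC : ClosedE C) (hS : ∀ (G : Type) [Group G], Group.IsSolvable G → C G)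
    [hN : N.Normal] (h : Tri N H) (g : G) (s : Λ ≃o Λ)
    (hg : ∀ D, Tr D → Inv s D → ∀ x, x ∈ H D ↔ g * x * g⁻¹ ∈ H D) :
    C ↥(N ⊔ Subgroup.zpowers g) := by
  classical
  have hle : ∀ S : Finset Λ, H (D0 s S) ⊔ Subgroup.zpowers g ≤ N ⊔ Subgroup.zpowers g :=
    fun S => sup_le_sup_right (h.le _ (tr_D0 s S)) _
  refine Pool.Agent.Y430.SS.of_directed hC.base _ (Finset Λ) ?_
    (fun S => (H (D0 s S) ⊔ Subgroup.zpowers g).subgroupOf (N ⊔ Subgroup.zpowers g)) ?_ ?_ ?_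
  · intro i j
    exact ⟨i ∪ j, Finset.subset_union_left, Finset.subset_union_right⟩
  · intro S T hST x hx
    exact sup_le_sup_right (h.mono _ _ (tr_D0 s S) (tr_D0 s T) (orb_mono s hST)) _ hx
  · rintro ⟨x, hx⟩
    obtain ⟨n, hn, z, hz, rfl⟩ := Subgroup.mem_sup_of_normal_left.1 hx
    obtain ⟨S, hS⟩ := h.total n hn
    refine ⟨S, mul_mem (Subgroup.mem_sup_left ?_) (Subgroup.mem_sup_right hz)⟩
    refine h.mono _ _ (tr_pairs _) (tr_D0 s S) ?_ hS
    rintro ⟨a, b⟩ ⟨ha, hb, hab⟩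
    refine ⟨⟨0, a, Finset.mem_coe.1 ha, by simp⟩, ⟨0, b, Finset.mem_coe.1 hb, by simp⟩, hab⟩
  · intro S
    exact hC.base.of_injective _ _ (Subgroup.subgroupOfEquivOfLe (hle S)).toMonoidHom
      (Subgroup.subgroupOfEquivOfLe (hle S)).injective (h.cyc_orb hC hS g s hg S)

theorem Tri.mem (hC : ClosedE C) (hS : ∀ (G : Type) [Group G], Group.IsSolvable G → C G)
    [hN : N.Normal] (h : Tri N H)
    (hg : ∀ g : G, ∃ n ∈ N, ∃ s : Λ ≃o Λ, ∀ D, Tr D → Inv s D →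
      ∀ x, x ∈ H D ↔ (n * g) * x * (n * g)⁻¹ ∈ H D) (hQ : C (G ⧸ N)) : C G := by
  refine ext_absorbed hC N (fun g => ?_) hQ
  obtain ⟨n, hn, s, h1⟩ := hg g
  have h2 : N ⊔ Subgroup.zpowers (n * g) = N ⊔ Subgroup.zpowers g := by
    apply le_antisymm
    · refine sup_le le_sup_left ?_
      rw [Subgroup.zpowers_le]
      exact mul_mem (Subgroup.mem_sup_left hn)
        (Subgroup.mem_sup_right (Subgroup.mem_zpowers g))
    · refine sup_le le_sup_left ?_
      rw [Subgroup.zpowers_le]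
      have h2 : g = n⁻¹ * (n * g) := by group
      rw [h2]
      exact mul_mem (Subgroup.mem_sup_left (inv_mem hn))
        (Subgroup.mem_sup_right (by
          have h3 : n * (n⁻¹ * (n * g)) = n * g := by group
          rw [h3]; exact Subgroup.mem_zpowers _))
  exact of_eq h2 (h.cyc hC hS (n * g) s h1)

end

end Pool.Agent.H63N.FJ
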